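import Pool.Agent.H530R3.Adv.Inst
import Pool.Agent.H530R3.Thr.Params

/-!
# The choice of the parameters
-/

set_option autoImplicit false

namespace Pool.Agent.H530R3.Adv

open MeasureTheory ProbabilityTheory Pool.Agent.NPC Pool.Agent.H628R3.RO Pool.Agent.H530R3.Thr

theorem par2 {q : ℝ} (h0 : 0 ≤ q) (h1 : q ≤ 1 / 2) {n l : ℕ} (hn : 4 * l + 8 ≤ n)
    (hq : 2 ^ l ≤ 2 ^ n * q) : ∃ a m j : ℕ, a + m + j = n ∧ l ≤ a ∧ l ≤ m ∧
      2 ^ m * q ^ j ≤ 1 / 4 ∧ 1 / 8 < 2 ^ m * q ^ j := by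
  classical
  by_cases hB : 2 ^ l * q ≤ 1 / 4
  · have hC : 1 / 4 < 2 ^ (n - l - 1) * q := by
      have h2 : (2 : ℝ) ^ n = 2 ^ (n - l - 1) * (2 * 2 ^ l) := by
        rw [← pow_succ', ← pow_add]
        congr 1
        omega
      rw [h2] at hq
      have h3 : (0 : ℝ) < 2 ^ l := by positivity
      have h4 : (2 : ℝ) ^ l * 1 ≤ 2 ^ l * (2 * (2 ^ (n - l - 1) * q)) := by
        calc (2 : ℝ) ^ l * 1 = 2 ^ l := mul_one _
          _ ≤ 2 ^ (n - l - 1) * (2 * 2 ^ l) * q := hq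
          _ = _ := by ring
      have h5 := le_of_mul_le_mul_left h4 h3
      linarith
    obtain ⟨m, h2, h3, h4, h5⟩ := exists_max hB hC
    refine ⟨n - m - 1, m, 1, by omega, by omega, h2, by rwa [pow_one], ?_⟩
    rw [pow_one]
    rw [pow_succ] at h5
    nlinarith
  · rw [not_le] at hB
    have hex : ∃ j : ℕ, 2 ^ l * q ^ j ≤ 1 / 4 := by
      refine ⟨l + 2, ?_⟩
      calc (2 : ℝ) ^ l * q ^ (l + 2) ≤ 2 ^ l * (1 / 2) ^ (l + 2) := by gcongr
        _ = 1 / 4 := by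
          rw [pow_add, ← mul_assoc, ← mul_pow]
          norm_num
    have hj := Nat.find_spec hex
    have hj' : ∀ i < Nat.find hex, 1 / 4 < 2 ^ l * q ^ i := fun i hi =>
      not_le.1 (Nat.find_min hex hi)
    have hjle : Nat.find hex ≤ l + 2 := by
      refine Nat.find_min' hex ?_
      calc (2 : ℝ) ^ l * q ^ (l + 2) ≤ 2 ^ l * (1 / 2) ^ (l + 2) := by gcongr
        _ = 1 / 4 := by
          rw [pow_add, ← mul_assoc, ← mul_pow]
          norm_num
    set j := Nat.find hex with hjdef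
    have hj1 : 1 ≤ j := by
      by_contra h
      have h2 : j = 0 := by omega
      rw [h2, pow_zero, mul_one] at hj
      have : (1 : ℝ) ≤ 2 ^ l := one_le_pow₀ (by norm_num)
      linarith
    have h2 := hj' (j - 1) (by omega)
    have h3 : (1 : ℝ) / 4 < 2 ^ (2 * l + 2) * q ^ j := by
      have h4 : q ^ j = q * q ^ (j - 1) := by
        rw [← pow_succ']
        congr 1
        omega
      have h5 : (2 : ℝ) ^ (2 * l + 2) = 4 * (2 ^ l * 2 ^ l) := by
        rw [← pow_add, show (4 : ℝ) = 2 ^ 2 by norm_num, ← pow_add]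
        congr 1
        ring
      rw [h4, h5]
      have h6 : (4 : ℝ) * (2 ^ l * 2 ^ l) * (q * q ^ (j - 1)) =
          4 * ((2 ^ l * q) * (2 ^ l * q ^ (j - 1))) := by ring
      rw [h6]
      nlinarith
    obtain ⟨m, h4, h5, h6, h7⟩ := exists_max hj h3
    refine ⟨n - m - j, m, j, by omega, by omega, h4, h6, ?_⟩
    rw [pow_succ] at h7
    nlinarith

variable (p : ℕ → unitInterval)

theorem par2_p {n l : ℕ} (hn : 4 * l + 8 ≤ n) (hq : 2 ^ l ≤ lam p n) :
    ∃ (b : Bool) (a m j : ℕ), a + m + j = n ∧ l ≤ a ∧ l ≤ m ∧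
      2 ^ m * qq p n b ^ j ≤ 1 / 4 ∧ 1 / 8 < 2 ^ m * qq p n b ^ j := by
  have h0 : 0 ≤ min (p n : ℝ) (1 - p n) := le_min (p n).2.1 (by linarith [(p n).2.2])
  have h1 : min (p n : ℝ) (1 - p n) ≤ 1 / 2 := by
    rcases le_total (p n : ℝ) (1 / 2) with h | h
    · exact (min_le_left _ _).trans h
    · exact (min_le_right _ _).trans (by linarith)
  obtain ⟨a, m, j, h2, h3, h4, h5, h6⟩ := par2 h0 h1 hn hq
  have h7 : qq p n (decide ((p n : ℝ) ≤ 1 / 2)) = min (p n : ℝ) (1 - p n) := by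
    unfold qq
    by_cases h : (p n : ℝ) ≤ 1 / 2
    · simp only [h, decide_true, if_true]
      rw [min_eq_left (by linarith)]
    · simp only [h, decide_false, Bool.false_eq_true, if_false]
      rw [min_eq_right (by linarith [not_le.1 h])]
  refine ⟨decide ((p n : ℝ) ≤ 1 / 2), a, m, j, h2, h3, h4, ?_⟩
  rw [h7]
  exact ⟨h5, h6⟩

/-- some advice makes the verifier right on the instances -/
def bad (M : Alg) (q s : Polynomial ℕ) (b : Bool) (a m j : ℕ) : Set Oracle :=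
  {A | ∃ α : List Bool, α.length ≤ (pS s).eval (a + m + j + 0) ∧ A ∈ right M q b a m j 0 α}

theorem bad_le {p : ℕ → unitInterval} (M : Alg) (q s : Polynomial ℕ) (b : Bool) (a m j Q : ℕ)
    (hQ : M.p.eval ((pI q s).eval (a + m + j + 0)) ≤ Q) (hQ0 : 0 < Q) (hQm : 2 * Q ≤ 2 ^ m)
    (ha : 192 * Q * ((pS s).eval (a + m + j + 0) + Q + 5 + (a + m + j)) + 6 * (a + m + j) + 2 ≤ 2 ^ a)
    (h1 : 2 ^ m * qq p (a + m + j + 0) b ^ j ≤ 1 / 4)
    (h2 : 1 / 8 < 2 ^ m * qq p (a + m + j + 0) b ^ j) :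
    pr p (bad M q s b a m j) ≤ 2 * (1 / 2) ^ (a + m + j) := by
  classical
  set n := a + m + j with hn
  set S := (pS s).eval (a + m + j + 0) with hS
  set m0 := 12 * (S + Q + 5 + n) with hm0
  set R := arr b a m j 0 with hR
  have hmu : R.mu p = 2 ^ m * qq p (a + m + j + 0) b ^ j := by
    unfold Arr.mu
    simp only [hR, arr, Fintype.card_pi, Fintype.card_bool, Finset.prod_const, Finset.card_univ,
      Fintype.card_fin]
    push_cast
    rfl
  have hmu1 : R.mu p ≤ 1 / 4 := by rw [hmu]; exact h1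
  have hmu2 : 1 / 8 ≤ R.mu p := by rw [hmu]; exact h2.le
  obtain ⟨a', rfl⟩ : ∃ a', a = a' + 1 := by
    refine ⟨a - 1, ?_⟩
    rcases Nat.eq_zero_or_pos a with h | h
    · rw [h] at ha
      simp at ha
    · omega
  set N' := 2 ^ a' with hN'
  have h2N : 2 ^ (a' + 1) = 2 * N' := by rw [pow_succ]; ring
  -- many hits
  have hhits : pr p {A | N' ≤ R.hits Finset.univ A} ≤ (25 / 32) ^ N' := by
    have h3 := R.chain2 (p := p) (L := R.n) le_rfl Finset.univ Set.univ
      (fun _ _ _ => by simp) N'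
    rw [Set.univ_inter] at h3
    refine h3.trans ?_
    have hc : (Finset.univ : Finset (Fin (a' + 1) → Bool)).card = 2 * N' := by
      rw [Finset.card_univ]
      simp [h2N]
    rw [hc]
    have h4 : pr p (Set.univ : Set Oracle) ≤ 1 := pr_le_one _
    calc (1 / 2 : ℝ) ^ N' * (1 + R.mu p) ^ (2 * N') * pr p Set.univ ≤
          (1 / 2 : ℝ) ^ N' * (1 + 1 / 4) ^ (2 * N') * 1 := by
          have h5 := R.mu_nonneg (p := p)
          refine mul_le_mul (mul_le_mul_of_nonneg_left (pow_le_pow_left₀ (by linarith)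
            (by linarith) _) (by positivity)) h4 (pr_nonneg _) (by positivity)
      _ = (25 / 32) ^ N' := by
        rw [pow_mul, mul_one, ← mul_pow]
        norm_num
  have hsub : bad M q s b (a' + 1) m j ⊆ {A | N' ≤ R.hits Finset.univ A} ∪
      ⋃ α ∈ (Finset.range (S + 1)).biUnion words, (right M q b (a' + 1) m j 0 α ∩
        {A | 2 * R.hits Finset.univ A ≤ 2 ^ (a' + 1)}) := by
    rintro A ⟨α, hα, hA⟩
    by_cases h3 : N' ≤ R.hits Finset.univ A
    · exact Or.inl h3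
    · right
      simp only [Set.mem_iUnion]
      refine ⟨α, ?_, hA, ?_⟩
      · rw [Finset.mem_biUnion]
        refine ⟨α.length, ?_, mem_words.2 rfl⟩
        rw [Finset.mem_range]
        exact Nat.lt_succ_of_le hα
      · simp only [Set.mem_ofPred_eq]
        omega
  have hρ : (1 + R.mu p / 2)⁻¹ ≤ (16 / 17 : ℝ) := by
    rw [inv_le_comm₀ (by linarith) (by norm_num)]
    linarith
  have hρ0 : (0 : ℝ) ≤ (1 + R.mu p / 2)⁻¹ := by
    have := R.mu_nonneg (p := p)
    positivity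
  have hm0' : 16 * Q * m0 ≤ 2 ^ (a' + 1) := by
    refine le_trans ?_ ha
    rw [hm0]
    have : 16 * Q * (12 * (S + Q + 5 + n)) = 192 * Q * (S + Q + 5 + n) := by ring
    omega
  have hright : ∀ α ∈ (Finset.range (S + 1)).biUnion words, pr p (right M q b (a' + 1) m j 0 α ∩
        {A | 2 * R.hits Finset.univ A ≤ 2 ^ (a' + 1)}) ≤ 16 * Q * (1 / 2) ^ (S + Q + 5 + n) := by
    intro α hα
    rw [Finset.mem_biUnion] at hα
    obtain ⟨i, hi, hαi⟩ := hα
    rw [mem_words] at hαi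
    rw [Finset.mem_range] at hi
    refine (right_le M q s b (a' + 1) m j 0 Q m0 hQ hQ0 hQm hm0' α (by omega)).trans ?_
    refine mul_le_mul_of_nonneg_left ?_ (by positivity)
    calc (1 + R.mu p / 2)⁻¹ ^ m0 ≤ (16 / 17) ^ m0 := pow_le_pow_left₀ hρ0 hρ _
      _ = ((16 / 17) ^ 12) ^ (S + Q + 5 + n) := by rw [hm0, pow_mul]
      _ ≤ (1 / 2) ^ (S + Q + 5 + n) := by
        refine pow_le_pow_left₀ (by positivity) (by norm_num) _
  have hcard : (((Finset.range (S + 1)).biUnion words).card : ℝ) ≤ 2 ^ (S + 1) := by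
    have h3 : ((Finset.range (S + 1)).biUnion words).card ≤ 2 ^ (S + 1) := by
      refine Finset.card_biUnion_le.trans ?_
      rw [Finset.sum_congr rfl fun i _ => card_words i]
      have h4 := Nat.geomSum_lt (m := 2) (n := S + 1) (s := Finset.range (S + 1)) le_rfl
        (fun k hk => Finset.mem_range.1 hk)
      exact h4.le
    exact_mod_cast h3
  have hQ2 : (Q : ℝ) ≤ 2 ^ Q := by exact_mod_cast (Nat.lt_two_pow_self (n := Q)).le
  have hfirst : (25 / 32 : ℝ) ^ N' ≤ (1 / 2) ^ n := by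
    have h3 : 3 * n ≤ N' := by omega
    calc (25 / 32 : ℝ) ^ N' ≤ (25 / 32) ^ (3 * n) :=
          pow_le_pow_of_le_one (by norm_num) (by norm_num) h3
      _ = ((25 / 32) ^ 3) ^ n := by rw [pow_mul]
      _ ≤ (1 / 2) ^ n := pow_le_pow_left₀ (by positivity) (by norm_num) _
  calc pr p (bad M q s b (a' + 1) m j) ≤ pr p (_ ∪ _) := pr_mono hsub
    _ ≤ pr p {A | N' ≤ R.hits Finset.univ A} + pr p (⋃ α ∈ (Finset.range (S + 1)).biUnion words,
        (right M q b (a' + 1) m j 0 α ∩ {A | 2 * R.hits Finset.univ A ≤ 2 ^ (a' + 1)})) := by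
      unfold pr
      exact measureReal_union_le _ _
    _ ≤ (1 / 2) ^ n + ∑ α ∈ (Finset.range (S + 1)).biUnion words,
        pr p (right M q b (a' + 1) m j 0 α ∩ {A | 2 * R.hits Finset.univ A ≤ 2 ^ (a' + 1)}) := by
      refine add_le_add (hhits.trans hfirst) ?_
      unfold pr
      exact measureReal_biUnion_finset_le _ _
    _ ≤ (1 / 2) ^ n + ∑ _α ∈ (Finset.range (S + 1)).biUnion words,
        16 * (Q : ℝ) * (1 / 2) ^ (S + Q + 5 + n) :=
      add_le_add le_rfl (Finset.sum_le_sum hright)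
    _ = (1 / 2) ^ n + (((Finset.range (S + 1)).biUnion words).card : ℝ) *
        (16 * (Q : ℝ) * (1 / 2) ^ (S + Q + 5 + n)) := by
      rw [Finset.sum_const, nsmul_eq_mul]
    _ ≤ (1 / 2) ^ n + 2 ^ (S + 1) * (16 * 2 ^ Q * (1 / 2) ^ (S + Q + 5 + n)) := by
      gcongr
    _ = 2 * (1 / 2) ^ n := by
      have h3 : (2 : ℝ) ^ (S + 1) * (16 * 2 ^ Q * (1 / 2) ^ (S + Q + 5 + n)) = (1 / 2) ^ n := by
        have h4 : (2 : ℝ) ^ (S + 1) * (16 * 2 ^ Q * (1 / 2) ^ (S + Q + 5 + n)) =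
            (2 ^ (S + 1) * 2 ^ 4 * 2 ^ Q) * ((1 / 2) ^ (S + 1 + 4 + Q) * (1 / 2) ^ n) := by
          rw [← pow_add (1 / 2 : ℝ)]
          rw [show S + 1 + 4 + Q + n = S + Q + 5 + n by ring]
          norm_num
          ring
        rw [h4, ← pow_add, ← pow_add, ← mul_assoc, ← mul_pow]
        norm_num
      rw [h3]
      ring

end Pool.Agent.H530R3.Adv
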