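import Pool.Agent.H530R3.Adv.Exch

/-!
# Exponentially small probabilities
-/

set_option autoImplicit false

namespace Pool.Agent.H530R3.Adv

open MeasureTheory ProbabilityTheory Pool.Agent.H628R3.RO Pool.Agent.H530R3.Thr

variable {p : ℕ → unitInterval}

namespace Arr

variable {ι κ : Type} (R : Arr ι κ)

/-- the strings of the classes in `T` -/
def clss (T : Set ι) : Set (List Bool) := {x | ∃ v ∈ T, x ∈ R.cls v}

theorem cls_sub_clss {T : Set ι} {v : ι} (h : v ∈ T) : R.cls v ⊆ R.clss T := fun _ hx => ⟨v, h, hx⟩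

theorem clss_mono {T T' : Set ι} (h : T ⊆ T') : R.clss T ⊆ R.clss T' := by
  rintro x ⟨v, hv, hx⟩
  exact ⟨v, h hv, hx⟩

/-- the event that there is a certificate for the class `v` that avoids the other classes in `U` -/
def dom (Q L : ℕ) (Acc : ι → Set Oracle) (U : Set ι) (v : ι) : Set Oracle :=
  cert Q L (Acc v) (R.clss (U \ {v}))

open Classical in
/-- the number of classes in `T` which are empty and have a certificate -/
noncomputable def cnt (Q L : ℕ) (Acc : ι → Set Oracle) (U : Set ι) (T : Finset ι) (A : Oracle) : ℕ :=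
  (T.filter fun v => A ∈ R.dom Q L Acc U v ∧ A ∉ R.hit v).card

open Classical in
theorem chain [Fintype κ] {Q L : ℕ} (Acc : ι → Set Oracle) (U : Set ι) (hnL : R.n ≤ L)
    (hQ : 2 * Q ≤ Fintype.card κ) (T : Finset ι) : (T : Set ι) ⊆ U → ∀ (S : Set Oracle),
    Loc ({x | x.length ≤ L} \ R.clss T) S → ∀ m : ℕ,
    pr p (S ∩ {A | (∀ v ∈ T, ¬ (A ∈ R.dom Q L Acc U v ∧ A ∈ R.hit v)) ∧
      m ≤ R.cnt Q L Acc U T A}) ≤ (1 + R.mu p / 2)⁻¹ ^ m * pr p S := by
  have hmu := R.mu_nonneg (p := p)
  set ρ : ℝ := (1 + R.mu p / 2)⁻¹ with hρ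
  have hρ0 : 0 < ρ := by positivity
  have hρ1 : ρ ≤ 1 := inv_le_one_of_one_le₀ (by linarith)
  have hρc : ρ * (1 + R.mu p / 2) = 1 := inv_mul_cancel₀ (by positivity)
  induction T using Finset.induction_on with
  | empty =>
    intro _ S _ m
    cases m with
    | zero =>
      rw [pow_zero, one_mul]
      exact pr_mono Set.inter_subset_left
    | succ m =>
      have h1 : S ∩ {A | (∀ v ∈ (∅ : Finset ι), ¬ (A ∈ R.dom Q L Acc U v ∧ A ∈ R.hit v)) ∧
          m + 1 ≤ R.cnt Q L Acc U ∅ A} = ∅ := by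
        ext A
        simp [cnt]
      rw [h1]
      have h2 : pr p (∅ : Set Oracle) = 0 := by simp [pr]
      rw [h2]
      exact mul_nonneg (pow_nonneg hρ0.le _) (pr_nonneg _)
  | insert u T hu ih =>
    intro hTU S hS m
    have hTU' : (T : Set ι) ⊆ U := fun x hx => hTU (by
      rw [Finset.coe_insert]; exact Set.mem_insert_of_mem _ hx)
    set K : Set (List Bool) := {x | x.length ≤ L} with hK
    have hKf : K.Finite := List.finite_length_le Bool L
    set D := R.dom Q L Acc U u with hD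
    set H := R.hit u with hH
    have hclsK : ∀ v, R.cls v ⊆ K := by
      rintro v x ⟨w, hw⟩
      simp only [hK, Set.mem_ofPred_eq]
      rw [R.len v w x hw]
      exact hnL
    have hins : ((insert u T : Finset ι) : Set ι) = insert u (T : Set ι) := Finset.coe_insert _ _
    rw [hins] at hS
    have hS1 : Loc (K \ R.cls u) S := by
      refine loc_mono' ?_ hS
      intro x hx
      exact ⟨hx.1, fun h => hx.2 (R.cls_sub_clss (Set.mem_insert _ _) h)⟩
    have hS2 : Loc (K \ R.clss T) S := by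
      refine loc_mono' ?_ hS
      intro x hx
      exact ⟨hx.1, fun h => hx.2 (R.clss_mono (Set.subset_insert _ _) h)⟩
    have hD2 : Loc (K \ R.clss T) D := by
      refine loc_mono' ?_ (loc_cert Q L (Acc u) (R.clss (U \ {u})))
      rintro x ⟨h1, h2⟩
      refine ⟨h1, fun h => h2 (R.clss_mono ?_ h)⟩
      intro v hv
      exact ⟨hTU' hv, fun h3 => hu (by rw [Set.mem_singleton_iff] at h3; rw [← h3]; exact hv)⟩
    have hH2 : Loc (K \ R.clss T) H := by
      refine loc_mono' ?_ (R.loc_hit u)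
      intro x hx
      refine ⟨hclsK u hx, ?_⟩
      rintro ⟨v, hv, hxv⟩
      have hne : u ≠ v := fun h => hu (by rw [h]; exact hv)
      exact (Set.disjoint_left.1 (R.cls_disj hne)) hx hxv
    have hDK := loc_mono' Set.sdiff_subset hD2
    have hHK := loc_mono' Set.sdiff_subset hH2
    have hSK := loc_mono' Set.sdiff_subset hS2
    have mS := measurableSet_of_loc hKf hSK
    have mD := measurableSet_of_loc hKf hDK
    have mH := measurableSet_of_loc hKf hHK
    have hex : R.mu p / 2 * pr p (S ∩ D ∩ Hᶜ) ≤ pr p (S ∩ D ∩ H) :=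
      R.exch (p := p) (Acc u) (R.clss (U \ {u})) hnL hQ u hS1
    have hsplit : pr p S = pr p (S ∩ D ∩ H) + pr p (S ∩ D ∩ Hᶜ) + pr p (S ∩ Dᶜ) := by
      unfold pr
      rw [← measureReal_inter_add_sdiff (μ := biasedOracle p) (s := S) (t := D) mD,
        ← measureReal_inter_add_sdiff (μ := biasedOracle p) (s := S ∩ D) (t := H) mH,
        Set.sdiff_eq, Set.sdiff_eq]
    cases m with
    | zero =>
      rw [pow_zero, one_mul]
      exact pr_mono Set.inter_subset_left
    | succ m =>
      have h1 := ih hTU' (S ∩ D ∩ Hᶜ) (loc_inter' (loc_inter' hS2 hD2) (loc_compl' hH2)) m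
      have h2 := ih hTU' (S ∩ Dᶜ) (loc_inter' hS2 (loc_compl' hD2)) (m + 1)
      have hcnt : ∀ A, R.cnt Q L Acc U (insert u T) A =
          (if A ∈ D ∧ A ∉ H then 1 else 0) + R.cnt Q L Acc U T A := by
        intro A
        unfold cnt
        rw [Finset.filter_insert]
        by_cases h : A ∈ D ∧ A ∉ H
        · rw [if_pos h, if_pos h, Finset.card_insert_of_notMem fun hh => hu (Finset.mem_filter.1 hh).1]
          ring
        · rw [if_neg h, if_neg h, zero_add]
      have hsub : S ∩ {A | (∀ v ∈ insert u T, ¬ (A ∈ R.dom Q L Acc U v ∧ A ∈ R.hit v)) ∧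
          m + 1 ≤ R.cnt Q L Acc U (insert u T) A} ⊆
          (S ∩ D ∩ Hᶜ ∩ {A | (∀ v ∈ T, ¬ (A ∈ R.dom Q L Acc U v ∧ A ∈ R.hit v)) ∧
            m ≤ R.cnt Q L Acc U T A}) ∪
          (S ∩ Dᶜ ∩ {A | (∀ v ∈ T, ¬ (A ∈ R.dom Q L Acc U v ∧ A ∈ R.hit v)) ∧
            m + 1 ≤ R.cnt Q L Acc U T A}) := by
        rintro A ⟨hA1, hA2, hA3⟩
        have h3 : ∀ v ∈ T, ¬ (A ∈ R.dom Q L Acc U v ∧ A ∈ R.hit v) := fun v hv =>
          hA2 v (Finset.mem_insert_of_mem hv)
        have h4 := hA2 u (Finset.mem_insert_self _ _)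
        rw [hcnt] at hA3
        by_cases h5 : A ∈ D
        · have h6 : A ∉ H := fun h6 => h4 ⟨h5, h6⟩
          rw [if_pos ⟨h5, h6⟩] at hA3
          exact Or.inl ⟨⟨⟨hA1, h5⟩, h6⟩, h3, by omega⟩
        · rw [if_neg fun h => h5 h.1] at hA3
          exact Or.inr ⟨⟨hA1, h5⟩, h3, by omega⟩
      calc pr p _ ≤ pr p (_ ∪ _) := pr_mono hsub
        _ ≤ pr p (S ∩ D ∩ Hᶜ ∩ _) + pr p (S ∩ Dᶜ ∩ _) := by
          unfold pr
          exact measureReal_union_le _ _
        _ ≤ ρ ^ m * pr p (S ∩ D ∩ Hᶜ) + ρ ^ (m + 1) * pr p (S ∩ Dᶜ) := add_le_add h1 h2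
        _ ≤ ρ ^ (m + 1) * pr p S := by
          have h7 : ρ ^ m = ρ ^ (m + 1) * (1 + R.mu p / 2) := by
            rw [pow_succ, mul_assoc, hρc, mul_one]
          rw [h7, hsplit]
          have h8 : 0 ≤ ρ ^ (m + 1) := pow_nonneg hρ0.le _
          have h9 := mul_le_mul_of_nonneg_left hex h8
          nlinarith

open Classical in
/-- the number of classes in `T` with a full block -/
noncomputable def hits (T : Finset ι) (A : Oracle) : ℕ := (T.filter fun v => A ∈ R.hit v).card

theorem pr_hit_le [Fintype κ] (v : ι) : pr p (R.hit v) ≤ R.mu p := by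
  have h1 : R.hit v ⊆ ⋃ w ∈ (Finset.univ : Finset κ), Full (R.J v w) R.b := by
    rintro A ⟨w, hw⟩
    simp only [Finset.mem_univ, Set.iUnion_true, Set.mem_iUnion]
    exact ⟨w, hw⟩
  calc pr p (R.hit v) ≤ pr p _ := pr_mono h1
    _ ≤ ∑ w : κ, pr p (Full (R.J v w) R.b) := by
      unfold pr
      exact measureReal_biUnion_finset_le _ _
    _ = R.mu p := by
      unfold mu
      rw [Finset.sum_congr rfl fun w _ => by rw [pr_full (n := R.n) (R.len v w), R.card v w],
        Finset.sum_const, Finset.card_univ, nsmul_eq_mul]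

open Classical in
theorem chain2 [Fintype κ] {L : ℕ} (hnL : R.n ≤ L) (T : Finset ι) : ∀ (S : Set Oracle),
    Loc ({x | x.length ≤ L} \ R.clss T) S → ∀ m : ℕ,
    pr p (S ∩ {A | m ≤ R.hits T A}) ≤ (1 / 2) ^ m * (1 + R.mu p) ^ T.card * pr p S := by
  have hmu := R.mu_nonneg (p := p)
  induction T using Finset.induction_on with
  | empty =>
    intro S _ m
    cases m with
    | zero =>
      simp only [pow_zero, Finset.card_empty, one_mul]
      exact pr_mono Set.inter_subset_left
    | succ m =>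
      have h1 : S ∩ {A | m + 1 ≤ R.hits ∅ A} = ∅ := by
        ext A
        simp [hits]
      rw [h1]
      have h2 : pr p (∅ : Set Oracle) = 0 := by simp [pr]
      rw [h2]
      exact mul_nonneg (by positivity) (pr_nonneg _)
  | insert u T hu ih =>
    intro S hS m
    set K : Set (List Bool) := {x | x.length ≤ L} with hK
    have hKf : K.Finite := List.finite_length_le Bool L
    set H := R.hit u with hH
    have hclsK : ∀ v, R.cls v ⊆ K := by
      rintro v x ⟨w, hw⟩
      simp only [hK, Set.mem_ofPred_eq]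
      rw [R.len v w x hw]
      exact hnL
    have hins : ((insert u T : Finset ι) : Set ι) = insert u (T : Set ι) := Finset.coe_insert _ _
    rw [hins] at hS
    have hS1 : Loc (K \ R.cls u) S := by
      refine loc_mono' ?_ hS
      intro x hx
      exact ⟨hx.1, fun h => hx.2 (R.cls_sub_clss (Set.mem_insert _ _) h)⟩
    have hS2 : Loc (K \ R.clss T) S := by
      refine loc_mono' ?_ hS
      intro x hx
      exact ⟨hx.1, fun h => hx.2 (R.clss_mono (Set.subset_insert _ _) h)⟩
    have hH2 : Loc (K \ R.clss T) H := by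
      refine loc_mono' ?_ (R.loc_hit u)
      intro x hx
      refine ⟨hclsK u hx, ?_⟩
      rintro ⟨v, hv, hxv⟩
      have hne : u ≠ v := fun h => hu (by rw [h]; exact hv)
      exact (Set.disjoint_left.1 (R.cls_disj hne)) hx hxv
    have hHK := loc_mono' Set.sdiff_subset hH2
    have mH := measurableSet_of_loc hKf hHK
    have hind : pr p (S ∩ H) ≤ R.mu p * pr p S := by
      have h1 := pr_inter_of_disjoint (p := p) (R.cls_finite u) (hKf.subset Set.sdiff_subset)
        (Set.disjoint_left.2 fun x hx hx' => hx'.2 hx) (R.loc_hit u) hS1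
      rw [Set.inter_comm, ← hH] at h1
      rw [h1]
      exact mul_le_mul_of_nonneg_right (R.pr_hit_le u) (pr_nonneg _)
    have hsplit : pr p S = pr p (S ∩ H) + pr p (S ∩ Hᶜ) := by
      unfold pr
      rw [← measureReal_inter_add_sdiff (μ := biasedOracle p) (s := S) (t := H) mH, Set.sdiff_eq]
    have hcard : (insert u T).card = T.card + 1 := Finset.card_insert_of_notMem hu
    cases m with
    | zero =>
      rw [pow_zero, one_mul]
      calc pr p _ ≤ 1 * pr p S := by rw [one_mul]; exact pr_mono Set.inter_subset_left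
        _ ≤ _ := by
          refine mul_le_mul_of_nonneg_right (one_le_pow₀ (by linarith)) (pr_nonneg _)
    | succ m =>
      have h1 := ih (S ∩ H) (loc_inter' hS2 hH2) m
      have h2 := ih (S ∩ Hᶜ) (loc_inter' hS2 (loc_compl' hH2)) (m + 1)
      have hcnt : ∀ A, R.hits (insert u T) A = (if A ∈ H then 1 else 0) + R.hits T A := by
        intro A
        unfold hits
        rw [Finset.filter_insert]
        by_cases h : A ∈ H
        · rw [if_pos h, if_pos h, Finset.card_insert_of_notMem fun hh => hu (Finset.mem_filter.1 hh).1]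
          ring
        · rw [if_neg h, if_neg h, zero_add]
      have hsub : S ∩ {A | m + 1 ≤ R.hits (insert u T) A} ⊆
          (S ∩ H ∩ {A | m ≤ R.hits T A}) ∪ (S ∩ Hᶜ ∩ {A | m + 1 ≤ R.hits T A}) := by
        rintro A ⟨hA1, hA3⟩
        simp only [Set.mem_ofPred_eq] at hA3
        rw [hcnt] at hA3
        by_cases h5 : A ∈ H
        · rw [if_pos h5] at hA3
          exact Or.inl ⟨⟨hA1, h5⟩, by simp only [Set.mem_ofPred_eq]; omega⟩
        · rw [if_neg h5] at hA3
          exact Or.inr ⟨⟨hA1, h5⟩, by simp only [Set.mem_ofPred_eq]; omega⟩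
      calc pr p _ ≤ pr p (_ ∪ _) := pr_mono hsub
        _ ≤ pr p (S ∩ H ∩ _) + pr p (S ∩ Hᶜ ∩ _) := by
          unfold pr
          exact measureReal_union_le _ _
        _ ≤ (1 / 2) ^ m * (1 + R.mu p) ^ T.card * pr p (S ∩ H) +
            (1 / 2) ^ (m + 1) * (1 + R.mu p) ^ T.card * pr p (S ∩ Hᶜ) := add_le_add h1 h2
        _ = (1 / 2) ^ (m + 1) * (1 + R.mu p) ^ T.card * (pr p S + pr p (S ∩ H)) := by
          rw [hsplit]
          ring
        _ ≤ (1 / 2) ^ (m + 1) * (1 + R.mu p) ^ T.card * (pr p S + R.mu p * pr p S) := by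
          gcongr
        _ = _ := by
          rw [hcard]
          ring

end Arr

end Pool.Agent.H530R3.Adv
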