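import Pool.Agent.H530R3.Adv.Chain

/-!
# Averaging over random sets of classes
-/

set_option autoImplicit false

namespace Pool.Agent.H530R3.Adv

open MeasureTheory ProbabilityTheory Pool.Agent.H628R3.RO Pool.Agent.H530R3.Thr

section count

variable {ι : Type} [Fintype ι] [DecidableEq ι] {k : ℕ}

theorem card_fix (B : Finset ι) (c : Fin k) :
    k ^ B.card * (Finset.univ.filter fun χ : ι → Fin k => ∀ i ∈ B, χ i = c).card =
      k ^ Fintype.card ι := by
  have h1 : (Finset.univ.filter fun χ : ι → Fin k => ∀ i ∈ B, χ i = c) =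
      Fintype.piFinset (fun i => if i ∈ B then ({c} : Finset (Fin k)) else Finset.univ) := by
    ext χ
    simp only [Finset.mem_filter, Finset.mem_univ, true_and, Fintype.mem_piFinset]
    refine forall_congr' fun i => ?_
    by_cases hi : i ∈ B <;> simp [hi]
  rw [h1, Fintype.card_piFinset]
  have h2 : k ^ B.card = ∏ i : ι, (if i ∈ B then k else 1) := by
    rw [Finset.prod_ite_mem]
    simp
  rw [h2, ← Finset.prod_mul_distrib]
  have h3 : ∀ i ∈ (Finset.univ : Finset ι), (if i ∈ B then k else 1) *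
      (if i ∈ B then ({c} : Finset (Fin k)) else Finset.univ).card = k := by
    intro i _
    by_cases hi : i ∈ B <;> simp [hi]
  rw [Finset.prod_congr rfl h3]
  simp

theorem card_good {Q : ℕ} (hQ0 : 0 < Q) (hk : k = 2 * Q) (v : ι) (T : Finset ι) (hv : v ∉ T)
    (hT : T.card ≤ Q) (c : Fin k) :
    k ^ Fintype.card ι ≤ 2 * k * (Finset.univ.filter fun χ : ι → Fin k =>
      χ v = c ∧ ∀ u ∈ T, χ u ≠ c).card := by
  classical
  set G := Finset.univ.filter fun χ : ι → Fin k => χ v = c ∧ ∀ u ∈ T, χ u ≠ c with hG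
  have h1 : (Finset.univ.filter fun χ : ι → Fin k => ∀ i ∈ ({v} : Finset ι), χ i = c) ⊆
      G ∪ T.biUnion fun u => Finset.univ.filter fun χ : ι → Fin k =>
        ∀ i ∈ ({v, u} : Finset ι), χ i = c := by
    intro χ hχ
    simp only [Finset.mem_filter, Finset.mem_univ, true_and, Finset.mem_singleton,
      forall_eq] at hχ
    rw [Finset.mem_union, Finset.mem_biUnion]
    by_cases h : ∀ u ∈ T, χ u ≠ c
    · exact Or.inl (Finset.mem_filter.2 ⟨Finset.mem_univ _, hχ, h⟩)
    · push Not at h
      obtain ⟨u, hu, hu2⟩ := h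
      exact Or.inr ⟨u, hu, by simp [hχ, hu2]⟩
  have h2 := (Finset.card_le_card h1).trans ((Finset.card_union_le _ _).trans
    (Nat.add_le_add_left Finset.card_biUnion_le _))
  have h3 : ∀ u ∈ T, k ^ 2 * (Finset.univ.filter fun χ : ι → Fin k =>
      ∀ i ∈ ({v, u} : Finset ι), χ i = c).card = k ^ Fintype.card ι := by
    intro u hu
    have hne : v ≠ u := fun h => hv (h ▸ hu)
    rw [← card_fix {v, u} c, Finset.card_pair hne]
  have h4 : k * (Finset.univ.filter fun χ : ι → Fin k => ∀ i ∈ ({v} : Finset ι), χ i = c).card =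
      k ^ Fintype.card ι := by
    rw [← card_fix {v} c, Finset.card_singleton, pow_one]
  have h5 : k ^ 2 * (∑ u ∈ T, (Finset.univ.filter fun χ : ι → Fin k =>
      ∀ i ∈ ({v, u} : Finset ι), χ i = c).card) ≤ Q * k ^ Fintype.card ι := by
    rw [Finset.mul_sum, Finset.sum_congr rfl h3, Finset.sum_const, smul_eq_mul]
    exact Nat.mul_le_mul_right _ hT
  have h6 : k * k ^ Fintype.card ι ≤ k ^ 2 * G.card + Q * k ^ Fintype.card ι := by
    calc k * k ^ Fintype.card ι = k ^ 2 * (Finset.univ.filter fun χ : ι → Fin k =>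
          ∀ i ∈ ({v} : Finset ι), χ i = c).card := by
          rw [← h4]
          ring
      _ ≤ k ^ 2 * (G.card + ∑ u ∈ T, (Finset.univ.filter fun χ : ι → Fin k =>
          ∀ i ∈ ({v, u} : Finset ι), χ i = c).card) := Nat.mul_le_mul_left _ h2
      _ ≤ _ := by
        rw [mul_add]
        exact Nat.add_le_add_left h5 _
  have h7 : Q * k ^ Fintype.card ι ≤ Q * (2 * k * G.card) := by
    generalize hg : G.card = g at h6
    generalize hM : k ^ Fintype.card ι = M at h6
    rw [hk] at h6 ⊢
    nlinarith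
  exact Nat.le_of_mul_le_mul_left h7 hQ0

end count

variable {p : ℕ → unitInterval}

namespace Arr

variable {ι κ : Type} (R : Arr ι κ)

open Classical in
theorem average [Fintype ι] [Fintype κ] {Q L : ℕ} (Acc : ι → Set Oracle) (hnL : R.n ≤ L)
    (hQ0 : 0 < Q) (hQ : 2 * Q ≤ Fintype.card κ) (X : Set Oracle)
    (hXloc : Loc {x | x.length ≤ L} X) (hX : ∀ A ∈ X, ∀ v, A ∈ Acc v ↔ A ∉ R.hit v)
    (hcert : ∀ A ∈ X, ∀ v, A ∈ Acc v → A ∈ cert Q L (Acc v) ∅) (m : ℕ)
    (hm : 16 * Q * m ≤ Fintype.card ι) (hι : 0 < Fintype.card ι) :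
    pr p (X ∩ {A | 2 * R.hits Finset.univ A ≤ Fintype.card ι}) ≤
      16 * Q * (1 + R.mu p / 2)⁻¹ ^ m := by
  set N := Fintype.card ι with hN
  set k := 2 * Q with hk
  have hk0 : 0 < k := by omega
  set c : Fin k := ⟨0, hk0⟩ with hc
  set ρ : ℝ := (1 + R.mu p / 2)⁻¹ with hρ
  set K : Set (List Bool) := {x | x.length ≤ L} with hK
  have hKf : K.Finite := List.finite_length_le Bool L
  have hclsK : ∀ v, R.cls v ⊆ K := by
    rintro v x ⟨w, hw⟩
    simp only [hK, Set.mem_ofPred_eq]
    rw [R.len v w x hw]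
    exact hnL
  -- the events
  set Us : (ι → Fin k) → Set ι := fun χ => {v | χ v = c} with hUs
  set Ts : (ι → Fin k) → Finset ι := fun χ => Finset.univ.filter fun v => χ v = c with hTs
  set ev : (ι → Fin k) → Set Oracle := fun χ => {A | (∀ v ∈ Ts χ,
    ¬ (A ∈ R.dom Q L Acc (Us χ) v ∧ A ∈ R.hit v)) ∧ m ≤ R.cnt Q L Acc (Us χ) (Ts χ) A} with hev
  have hdomK : ∀ U v, Loc K (R.dom Q L Acc U v) := fun U v =>
    loc_mono' (fun x hx => hx.1) (loc_cert Q L (Acc v) _)
  have hhitK : ∀ v, Loc K (R.hit v) := fun v => loc_mono' (hclsK v) (R.loc_hit v)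
  have hevK : ∀ χ, Loc K (ev χ) := by
    intro χ A A' h
    have e1 : ∀ v, A ∈ R.dom Q L Acc (Us χ) v ↔ A' ∈ R.dom Q L Acc (Us χ) v := fun v =>
      hdomK _ v A A' h
    have e2 : ∀ v, A ∈ R.hit v ↔ A' ∈ R.hit v := fun v => hhitK v A A' h
    have e3 : R.cnt Q L Acc (Us χ) (Ts χ) A = R.cnt Q L Acc (Us χ) (Ts χ) A' := by
      unfold cnt
      congr 1
      exact Finset.filter_congr fun v _ => by rw [e1, e2]
    simp only [hev, Set.mem_ofPred_eq]
    rw [e3]
    exact and_congr_left fun _ => forall₂_congr fun v _ => by rw [e1, e2]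
  have hevp : ∀ χ, pr p (ev χ) ≤ ρ ^ m := by
    intro χ
    have h1 := R.chain (p := p) Acc (Us χ) hnL hQ (Ts χ) (by
      intro v hv
      simp only [hTs, Finset.coe_filter, Finset.mem_univ, true_and] at hv
      exact hv) Set.univ (fun _ _ _ => by simp) m
    rw [Set.univ_inter] at h1
    refine h1.trans ?_
    have hmu := R.mu_nonneg (p := p)
    calc ρ ^ m * pr p Set.univ ≤ ρ ^ m * 1 :=
          mul_le_mul_of_nonneg_left (pr_le_one _) (pow_nonneg (by positivity) _)
      _ = ρ ^ m := mul_one _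
  set X' : Set Oracle := X ∩ {A | 2 * R.hits Finset.univ A ≤ N} with hX'
  have hX'K : Loc K X' := by
    refine loc_inter' hXloc ?_
    intro A A' h
    have e2 : ∀ v, A ∈ R.hit v ↔ A' ∈ R.hit v := fun v => hhitK v A A' h
    have e3 : R.hits Finset.univ A = R.hits Finset.univ A' := by
      unfold hits
      congr 1
      exact Finset.filter_congr fun v _ => by rw [e2]
    simp only [Set.mem_ofPred_eq]
    rw [e3]
  -- every oracle in `X'` is in many of the events
  have hmany : ∀ A ∈ X', k ^ N ≤ 8 * k * (Finset.univ.filter fun χ : ι → Fin k => A ∈ ev χ).card := by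
    rintro A ⟨hA, hhits⟩
    simp only [Set.mem_ofPred_eq] at hhits
    have hno : ∀ (χ : ι → Fin k) (v : ι), ¬ (A ∈ R.dom Q L Acc (Us χ) v ∧ A ∈ R.hit v) := by
      rintro χ v ⟨h1, h2⟩
      exact (hX A hA v).1 (cert_sub h1) h2
    have hevA : ∀ χ, A ∈ ev χ ↔ m ≤ R.cnt Q L Acc (Us χ) (Ts χ) A := fun χ =>
      ⟨fun h => h.2, fun h => ⟨fun v _ => hno χ v, h⟩⟩
    -- the empty classes
    set Z := Finset.univ.filter fun v : ι => A ∉ R.hit v with hZ
    have hZc : N ≤ 2 * Z.card := by
      have h1 := Finset.card_filter_add_card_filter_not (s := (Finset.univ : Finset ι))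
        (fun v => A ∈ R.hit v)
      rw [Finset.card_univ] at h1
      unfold hits at hhits
      change 2 * (Finset.univ.filter fun v => A ∈ R.hit v).card ≤ N at hhits
      have h2 : (Finset.univ.filter fun v => A ∈ R.hit v).card + Z.card = N := h1
      omega
    -- one empty class
    have hone : ∀ v ∈ Z, k ^ N ≤ 2 * k * (Finset.univ.filter fun χ : ι → Fin k =>
        χ v = c ∧ A ∈ R.dom Q L Acc (Us χ) v).card := by
      intro v hv
      have hv' : A ∉ R.hit v := (Finset.mem_filter.1 hv).2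
      obtain ⟨T, h1, h2, _, h4⟩ := hcert A hA v ((hX A hA v).2 hv')
      set V := (Finset.univ.filter fun u : ι => u ≠ v ∧ ∃ x ∈ T, x ∈ R.cls u) with hV
      have hVc : V.card ≤ Q := by
        refine le_trans ?_ h1
        have h5 : ∀ u, ∃ x : List Bool, u ∈ V → x ∈ T ∧ x ∈ R.cls u := by
          intro u
          by_cases h : u ∈ V
          · obtain ⟨_, x, hx⟩ := (Finset.mem_filter.1 h).2
            exact ⟨x, fun _ => hx⟩
          · exact ⟨[], fun h' => absurd h' h⟩
        choose f hf using h5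
        refine Finset.card_le_card_of_injOn f (fun u hu => (hf u hu).1) ?_
        intro u hu u' hu' hff
        by_contra hne
        have h6 := (hf u hu).2
        have h7 := (hf u' hu').2
        rw [← hff] at h7
        exact (Set.disjoint_left.1 (R.cls_disj hne)) h6 h7
      have hvV : v ∉ V := fun h => (Finset.mem_filter.1 h).2.1 rfl
      refine (card_good hQ0 hk v V hvV hVc c).trans (Nat.mul_le_mul_left _ ?_)
      refine Finset.card_le_card ?_
      intro χ hχ
      rw [Finset.mem_filter] at hχ ⊢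
      refine ⟨Finset.mem_univ _, hχ.2.1, T, h1, h2, ?_, h4⟩
      rintro x hx ⟨u, ⟨hu1, hu2⟩, hxu⟩
      rw [Set.mem_singleton_iff] at hu2
      exact hχ.2.2 u (Finset.mem_filter.2 ⟨Finset.mem_univ _, hu2, x, hx, hxu⟩) hu1
    -- double counting
    have hsum : ∑ χ : ι → Fin k, R.cnt Q L Acc (Us χ) (Ts χ) A =
        ∑ v ∈ Z, (Finset.univ.filter fun χ : ι → Fin k =>
          χ v = c ∧ A ∈ R.dom Q L Acc (Us χ) v).card := by
      have h1 : ∀ χ : ι → Fin k, R.cnt Q L Acc (Us χ) (Ts χ) A =
          (Z.filter fun v => χ v = c ∧ A ∈ R.dom Q L Acc (Us χ) v).card := by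
        intro χ
        unfold cnt
        congr 1
        ext v
        simp only [hTs, hZ, Finset.mem_filter, Finset.mem_univ, true_and]
        tauto
      rw [Finset.sum_congr rfl fun χ _ => h1 χ]
      simp only [Finset.card_filter]
      rw [Finset.sum_comm]
    have hlow : N * k ^ N ≤ 4 * k * ∑ χ : ι → Fin k, R.cnt Q L Acc (Us χ) (Ts χ) A := by
      rw [hsum]
      have h1 : Z.card * k ^ N ≤ 2 * k * ∑ v ∈ Z, (Finset.univ.filter fun χ : ι → Fin k =>
          χ v = c ∧ A ∈ R.dom Q L Acc (Us χ) v).card := by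
        rw [Finset.mul_sum, ← smul_eq_mul, ← Finset.sum_const]
        exact Finset.sum_le_sum hone
      calc N * k ^ N ≤ 2 * Z.card * k ^ N := Nat.mul_le_mul_right _ hZc
        _ = 2 * (Z.card * k ^ N) := by ring
        _ ≤ 2 * (2 * k * _) := Nat.mul_le_mul_left _ h1
        _ = _ := by ring
    set G := Finset.univ.filter fun χ : ι → Fin k => A ∈ ev χ with hG
    have hup : ∑ χ : ι → Fin k, R.cnt Q L Acc (Us χ) (Ts χ) A ≤ N * G.card + m * k ^ N := by
      have h1 : ∀ χ : ι → Fin k, R.cnt Q L Acc (Us χ) (Ts χ) A ≤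
          (if A ∈ ev χ then N else 0) + m := by
        intro χ
        by_cases h : A ∈ ev χ
        · rw [if_pos h]
          have h2 : R.cnt Q L Acc (Us χ) (Ts χ) A ≤ N := by
            unfold cnt
            exact (Finset.card_le_univ _)
          omega
        · rw [if_neg h]
          rw [hevA] at h
          omega
      calc ∑ χ : ι → Fin k, R.cnt Q L Acc (Us χ) (Ts χ) A ≤
          ∑ χ : ι → Fin k, ((if A ∈ ev χ then N else 0) + m) := Finset.sum_le_sum fun χ _ => h1 χ
        _ = N * G.card + m * k ^ N := by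
          rw [Finset.sum_add_distrib, ← Finset.sum_filter, Finset.sum_const, Finset.sum_const,
            Finset.card_univ, Fintype.card_fun, Fintype.card_fin, smul_eq_mul, smul_eq_mul]
          ring
    have h1 : N * k ^ N ≤ 4 * k * (N * G.card + m * k ^ N) :=
      hlow.trans (Nat.mul_le_mul_left _ hup)
    have h2 : 8 * k * m ≤ N := by
      rw [hk]
      calc 8 * (2 * Q) * m = 16 * Q * m := by ring
        _ ≤ N := hm
    have h3 : 2 * (4 * k * (m * k ^ N)) ≤ N * k ^ N := by
      calc 2 * (4 * k * (m * k ^ N)) = 8 * k * m * k ^ N := by ring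
        _ ≤ N * k ^ N := Nat.mul_le_mul_right _ h2
    have h4 : N * k ^ N ≤ N * (8 * k * G.card) := by
      have h5 : 4 * k * (N * G.card + m * k ^ N) = 4 * k * (N * G.card) + 4 * k * (m * k ^ N) := by
        ring
      have h6 : N * (8 * k * G.card) = 2 * (4 * k * (N * G.card)) := by ring
      rw [h5] at h1
      rw [h6]
      omega
    exact Nat.le_of_mul_le_mul_left h4 hι
  -- integration
  have e1 : ∫ A, X'.indicator (fun _ => ((k : ℝ) ^ N)) A ∂(biasedOracle p) =
      (k : ℝ) ^ N * pr p X' := by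
    rw [integral_indicator_const _ (measurableSet_of_loc hKf hX'K)]
    unfold pr
    rw [smul_eq_mul, mul_comm]
  have e2 : ∫ A, ∑ χ : ι → Fin k, (ev χ).indicator (fun _ => 8 * (k : ℝ)) A ∂(biasedOracle p) =
      ∑ χ : ι → Fin k, 8 * (k : ℝ) * pr p (ev χ) := by
    rw [integral_finsetSum]
    · refine Finset.sum_congr rfl fun χ _ => ?_
      rw [integral_indicator_const _ (measurableSet_of_loc hKf (hevK χ))]
      unfold pr
      rw [smul_eq_mul, mul_comm]
    · intro χ _
      exact (integrable_const _).indicator (measurableSet_of_loc hKf (hevK χ))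
  have e3 : (k : ℝ) ^ N * pr p X' ≤ ∑ χ : ι → Fin k, 8 * (k : ℝ) * pr p (ev χ) := by
    rw [← e1, ← e2]
    refine integral_mono ((integrable_const _).indicator (measurableSet_of_loc hKf hX'K))
      (integrable_finsetSum _ fun χ _ =>
        (integrable_const _).indicator (measurableSet_of_loc hKf (hevK χ))) ?_
    intro A
    by_cases hA : A ∈ X'
    · simp only [Set.indicator_of_mem hA]
      have h1 := hmany A hA
      have h2 : ∑ χ : ι → Fin k, (ev χ).indicator (fun _ => 8 * (k : ℝ)) A =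
          8 * k * ((Finset.univ.filter fun χ : ι → Fin k => A ∈ ev χ).card : ℝ) := by
        simp only [Set.indicator_apply]
        rw [← Finset.sum_filter, Finset.sum_const, nsmul_eq_mul]
        ring
      rw [h2]
      exact_mod_cast h1
    · simp only [Set.indicator_of_notMem hA]
      exact Finset.sum_nonneg fun χ _ => Set.indicator_nonneg (fun _ _ => by positivity) _
  have e4 : ∑ χ : ι → Fin k, 8 * (k : ℝ) * pr p (ev χ) ≤ (k : ℝ) ^ N * (8 * k * ρ ^ m) := by
    calc ∑ χ : ι → Fin k, 8 * (k : ℝ) * pr p (ev χ) ≤ ∑ _χ : ι → Fin k, 8 * (k : ℝ) * ρ ^ m :=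
          Finset.sum_le_sum fun χ _ => mul_le_mul_of_nonneg_left (hevp χ) (by positivity)
      _ = _ := by
        rw [Finset.sum_const, Finset.card_univ, Fintype.card_fun, Fintype.card_fin, nsmul_eq_mul]
        push_cast
        ring
  have hkN : (0 : ℝ) < (k : ℝ) ^ N := by positivity
  have e5 := le_of_mul_le_mul_left (e3.trans e4) hkN
  refine e5.trans_eq ?_
  rw [hk]
  push_cast
  ring

end Arr

end Pool.Agent.H530R3.Adv
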