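import Pool.Agent.H530R3.Thr.Meas

/-!
# Exchange of an empty class for a class with a full block
-/

set_option autoImplicit false

namespace Pool.Agent.H530R3.Adv

open MeasureTheory ProbabilityTheory Pool.Agent.H628R3.RO Pool.Agent.H530R3.Thr

variable {p : ℕ → unitInterval}

/-- Many pairwise disjoint blocks `J v w` of strings of the length `n`, arranged in classes `v`. -/
structure Arr (ι κ : Type) where
  J : ι → κ → Finset (List Bool)
  n : ℕ
  j : ℕ
  b : Bool
  disj : ∀ v w v' w', (v, w) ≠ (v', w') → Disjoint (J v w) (J v' w')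
  len : ∀ v w, ∀ x ∈ J v w, x.length = n
  card : ∀ v w, (J v w).card = j

namespace Arr

variable {ι κ : Type} (R : Arr ι κ)

/-- the strings of the class `v` -/
def cls (v : ι) : Set (List Bool) := {x | ∃ w, x ∈ R.J v w}

/-- some block of the class `v` is full -/
def hit (v : ι) : Set Oracle := {A | ∃ w, A ∈ Full (R.J v w) R.b}

/-- There is a set of at most `Q` strings, of length at most `L` and not in `Y`, such that all
oracles that agree on this set with `A` are in `Acc`. -/
def cert (Q L : ℕ) (Acc : Set Oracle) (Y : Set (List Bool)) : Set Oracle :=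
  {A | ∃ T : Finset (List Bool), T.card ≤ Q ∧ (∀ x ∈ T, x.length ≤ L) ∧ (∀ x ∈ T, x ∉ Y) ∧
    ∀ A' : Oracle, (∀ x ∈ T, A' x = A x) → A' ∈ Acc}

theorem cls_finite (v : ι) : (R.cls v).Finite := by
  refine (List.finite_length_eq Bool R.n).subset ?_
  rintro x ⟨w, hw⟩
  exact R.len v w x hw

theorem cls_disj {v v' : ι} (h : v ≠ v') : Disjoint (R.cls v) (R.cls v') := by
  rw [Set.disjoint_left]
  rintro x ⟨w, hw⟩ ⟨w', hw'⟩
  exact (Finset.disjoint_left.1 (R.disj v w v' w' fun e => h (by simpa using congrArg Prod.fst e)))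
    hw hw'

theorem loc_hit (v : ι) : Loc (R.cls v) (R.hit v) := by
  intro A A' h
  unfold hit
  simp only [Set.mem_ofPred_eq]
  exact exists_congr fun w => loc_full _ _ A A' fun x hx => h x ⟨w, hx⟩

theorem loc_cert (Q L : ℕ) (Acc : Set Oracle) (Y : Set (List Bool)) :
    Loc {x | x.length ≤ L ∧ x ∉ Y} (cert Q L Acc Y) := by
  have key : ∀ A A2 : Oracle, (∀ x ∈ {x : List Bool | x.length ≤ L ∧ x ∉ Y}, A x = A2 x) →
      A ∈ cert Q L Acc Y → A2 ∈ cert Q L Acc Y := by
    rintro A A2 h ⟨T, h1, h2, h3, h4⟩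
    exact ⟨T, h1, h2, h3, fun A' hA' => h4 A' fun x hx => by
      rw [hA' x hx, h x ⟨h2 x hx, h3 x hx⟩]⟩
  exact fun A A2 h => ⟨key A A2 h, key A2 A fun x hx => (h x hx).symm⟩

theorem cert_sub {Q L : ℕ} {Acc : Set Oracle} {Y : Set (List Bool)} :
    cert Q L Acc Y ⊆ Acc := by
  rintro A ⟨T, _, _, _, h⟩
  exact h A fun _ _ => rfl

/-- the expected number of full blocks in a class -/
noncomputable def mu (p : ℕ → unitInterval) [Fintype κ] : ℝ :=
  Fintype.card κ * qq p R.n R.b ^ R.j

theorem mu_nonneg [Fintype κ] : 0 ≤ R.mu p := by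
  unfold mu
  exact mul_nonneg (by positivity) (pow_nonneg (qq_nonneg _ _) _)

open Classical in
theorem exch [Fintype κ] {Q L : ℕ} (Acc : Set Oracle) (Y : Set (List Bool)) (hnL : R.n ≤ L)
    (hQ : 2 * Q ≤ Fintype.card κ) (v : ι) {S : Set Oracle}
    (hS : Loc ({x | x.length ≤ L} \ R.cls v) S) :
    R.mu p / 2 * pr p (S ∩ cert Q L Acc Y ∩ (R.hit v)ᶜ) ≤
      pr p (S ∩ cert Q L Acc Y ∩ R.hit v) := by
  set K : Set (List Bool) := {x | x.length ≤ L} with hK
  have hKf : K.Finite := List.finite_length_le Bool L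
  set D := cert Q L Acc Y with hD
  set X := S ∩ D ∩ (R.hit v)ᶜ with hX
  set π : ℝ := qq p R.n R.b ^ R.j with hπ
  have hπ0 : 0 ≤ π := pow_nonneg (qq_nonneg _ _) _
  have hclsK : R.cls v ⊆ K := by
    rintro x ⟨w, hw⟩
    simp only [hK, Set.mem_ofPred_eq]
    rw [R.len v w x hw]
    exact hnL
  have hJK : ∀ w, ((R.J v w : Finset (List Bool)) : Set (List Bool)) ⊆ K := fun w x hx =>
    hclsK ⟨w, hx⟩
  have hSK : Loc K S := loc_mono' Set.sdiff_subset hS
  have hDK : Loc K D := loc_mono' (fun x hx => hx.1) (loc_cert Q L Acc Y)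
  have hhK : Loc K (R.hit v) := loc_mono' hclsK (R.loc_hit v)
  have hXK : Loc K X := loc_inter' (loc_inter' hSK hDK) (loc_compl' hhK)
  set E : κ → Set Oracle := fun w => {A | A ∈ X ∧ A ∈ cert Q L Acc (Y ∪ (R.J v w : Set (List Bool)))}
    with hE
  have hEK : ∀ w, Loc K (E w) := fun w => loc_inter' hXK
    (loc_mono' (fun x hx => hx.1) (loc_cert Q L Acc _))
  set E' : κ → Set Oracle := fun w => {A | ∃ A0 ∈ E w, ∀ x ∉ R.J v w, A x = A0 x} with hE'
  have hE'loc : ∀ w, Loc (K \ (R.J v w : Set (List Bool))) (E' w) := by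
    intro w
    have key : ∀ A A2 : Oracle, (∀ x ∈ K \ (R.J v w : Set (List Bool)), A x = A2 x) →
        A ∈ E' w → A2 ∈ E' w := by
      rintro A A2 h ⟨A0, hA0, h0⟩
      refine ⟨fun x => if x ∈ R.J v w then A0 x else A2 x, ?_, fun x hx => by simp [hx]⟩
      refine (hEK w A0 _ fun x hx => ?_).1 hA0
      by_cases hxJ : x ∈ R.J v w
      · simp [hxJ]
      · simp only [hxJ, if_false]
        rw [← h x ⟨hx, hxJ⟩, h0 x hxJ]
    exact fun A A2 h => ⟨key A A2 h, key A2 A fun x hx => (h x hx).symm⟩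
  set F : κ → Set Oracle := fun w => Full (R.J v w) R.b with hF
  have hFK : ∀ w, Loc K (F w) := fun w => loc_mono' (hJK w) (loc_full _ _)
  have hprF : ∀ w, pr p (F w) = π := by
    intro w
    rw [hF, pr_full (n := R.n) (R.len v w), R.card v w]
  have hprod : ∀ w, π * pr p (E w) ≤ pr p (F w ∩ E' w) := by
    intro w
    rw [pr_inter_of_disjoint (R.J v w).finite_toSet (hKf.subset Set.sdiff_subset)
      (Set.disjoint_left.2 fun x hx hx' => hx'.2 hx) (loc_full _ _) (hE'loc w), hprF w]
    refine mul_le_mul_of_nonneg_left (pr_mono ?_) hπ0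
    intro A hA
    exact ⟨A, hA, fun x _ => rfl⟩
  have hdisj : ((Finset.univ : Finset κ) : Set κ).PairwiseDisjoint (fun w => F w ∩ E' w) := by
    intro w _ w' _ hne
    rw [Function.onFun, Set.disjoint_left]
    rintro A ⟨h3, _⟩ ⟨_, A0, hA0, h4⟩
    apply hA0.1.2
    refine ⟨w, fun x hx => ?_⟩
    have hxw : x ∉ R.J v w' := fun hxl =>
      (Finset.disjoint_left.1 (R.disj v w v w' fun e => hne (by simpa using congrArg Prod.snd e)))
        hx hxl
    rw [← h4 x hxw]
    exact h3 x hx
  have hsub : (⋃ w ∈ (Finset.univ : Finset κ), F w ∩ E' w) ⊆ S ∩ D ∩ R.hit v := by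
    intro A hA
    simp only [Set.mem_iUnion] at hA
    obtain ⟨w, _, h3, A0, hA0, h4⟩ := hA
    refine ⟨⟨?_, ?_⟩, w, h3⟩
    · refine (hS A0 A fun x hx => (h4 x fun hxJ => hx.2 ⟨w, hxJ⟩).symm).1 hA0.1.1.1
    · obtain ⟨T, h5, h6, h7, h8⟩ := hA0.2
      refine ⟨T, h5, h6, fun x hx hxY => h7 x hx (Or.inl hxY), fun A' hA' => h8 A' fun x hx => ?_⟩
      rw [hA' x hx, h4 x fun hxJ => h7 x hx (Or.inr hxJ)]
  have hA1 : ∑ w : κ, π * pr p (E w) ≤ pr p (S ∩ D ∩ R.hit v) := by
    calc ∑ w : κ, π * pr p (E w) ≤ ∑ w : κ, pr p (F w ∩ E' w) :=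
          Finset.sum_le_sum fun w _ => hprod w
      _ = pr p (⋃ w ∈ (Finset.univ : Finset κ), F w ∩ E' w) := by
        unfold pr
        refine (measureReal_biUnion_finset hdisj fun w _ => ?_).symm
        exact (measurableSet_of_loc hKf (hFK w)).inter
          (measurableSet_of_loc (hKf.subset Set.sdiff_subset) (hE'loc w))
      _ ≤ _ := pr_mono hsub
  refine le_trans ?_ hA1
  have e1 : ∫ A, X.indicator (fun _ => R.mu p / 2) A ∂(biasedOracle p) =
      R.mu p / 2 * pr p X := by
    rw [integral_indicator_const _ (measurableSet_of_loc hKf hXK)]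
    unfold pr
    rw [smul_eq_mul, mul_comm]
  have e2 : ∫ A, ∑ w : κ, (E w).indicator (fun _ => π) A ∂(biasedOracle p) =
      ∑ w : κ, π * pr p (E w) := by
    rw [integral_finsetSum]
    · refine Finset.sum_congr rfl fun w _ => ?_
      rw [integral_indicator_const _ (measurableSet_of_loc hKf (hEK w))]
      unfold pr
      rw [smul_eq_mul, mul_comm]
    · intro w _
      exact (integrable_const _).indicator (measurableSet_of_loc hKf (hEK w))
  rw [← e1, ← e2]
  refine integral_mono ((integrable_const _).indicator (measurableSet_of_loc hKf hXK))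
    (integrable_finsetSum _ fun w _ =>
      (integrable_const _).indicator (measurableSet_of_loc hKf (hEK w))) ?_
  intro A
  by_cases hA : A ∈ X
  · simp only [Set.indicator_of_mem hA]
    obtain ⟨T, h5, h6, h7, h8⟩ := hA.1.2
    -- the blocks which are touched by `T`
    set bad := (Finset.univ : Finset κ).filter fun w => ¬ Disjoint T (R.J v w) with hbad
    have h9 : bad.card ≤ Q := by
      refine le_trans ?_ h5
      have h10 : ∀ w, ∃ x : List Bool, ¬ Disjoint T (R.J v w) → x ∈ T ∧ x ∈ R.J v w := by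
        intro w
        by_cases h : Disjoint T (R.J v w)
        · exact ⟨[], fun h' => absurd h h'⟩
        · rw [Finset.not_disjoint_iff] at h
          obtain ⟨x, hx⟩ := h
          exact ⟨x, fun _ => hx⟩
      choose f hf using h10
      refine Finset.card_le_card_of_injOn f ?_ ?_
      · intro w hw
        exact (hf w (Finset.mem_filter.1 (Finset.mem_coe.1 hw)).2).1
      · intro w hw w' hw' hff
        by_contra hne
        have h11 := (hf w (Finset.mem_filter.1 (Finset.mem_coe.1 hw)).2).2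
        have h12 := (hf w' (Finset.mem_filter.1 (Finset.mem_coe.1 hw')).2).2
        rw [← hff] at h12
        exact (Finset.disjoint_left.1 (R.disj v w v w' fun e => hne
          (by simpa using congrArg Prod.snd e))) h11 h12
    have h10 : ∀ w ∈ (Finset.univ : Finset κ) \ bad, A ∈ E w := by
      intro w hw
      refine ⟨hA, T, h5, h6, ?_, h8⟩
      rintro x hx (hxY | hxJ)
      · exact h7 x hx hxY
      · have h11 : Disjoint T (R.J v w) := by
          by_contra hcon
          exact (Finset.mem_sdiff.1 hw).2 (Finset.mem_filter.2 ⟨Finset.mem_univ _, hcon⟩)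
        exact (Finset.disjoint_left.1 h11) hx hxJ
    have h11 : ∑ w ∈ (Finset.univ : Finset κ) \ bad, (E w).indicator (fun _ => π) A ≤
        ∑ w : κ, (E w).indicator (fun _ => π) A :=
      Finset.sum_le_sum_of_subset_of_nonneg Finset.sdiff_subset fun w _ _ =>
        Set.indicator_nonneg (fun _ _ => hπ0) _
    refine le_trans ?_ h11
    rw [Finset.sum_congr rfl fun w hw => Set.indicator_of_mem (h10 w hw) _, Finset.sum_const,
      nsmul_eq_mul]
    have h12 : Fintype.card κ ≤ 2 * ((Finset.univ : Finset κ) \ bad).card := by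
      have h13 : ((Finset.univ : Finset κ) \ bad).card = Fintype.card κ - bad.card := by
        rw [Finset.card_sdiff_of_subset (Finset.filter_subset _ _), Finset.card_univ]
      rw [h13]
      omega
    have h13 : (Fintype.card κ : ℝ) ≤ 2 * (((Finset.univ : Finset κ) \ bad).card : ℝ) := by
      exact_mod_cast h12
    unfold mu
    rw [← hπ]
    nlinarith
  · simp only [Set.indicator_of_notMem hA]
    exact Finset.sum_nonneg fun w _ => Set.indicator_nonneg (fun _ _ => hπ0) _

end Arr

end Pool.Agent.H530R3.Adv
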