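import Pool.Agent.H530R3.Adv.Growth

/-!
# The exact threshold for nonuniform classes
-/

set_option autoImplicit false

namespace Pool.Agent.H530R3.Adv

open MeasureTheory Pool.Agent.NPC Pool.Agent.H628R3.RO
open Pool.Agent.H530R3.Thr hiding InP inNP_of_inP
open Pool.Agent.H583R2.S2 (IsP chr)

variable {p : ℕ → unitInterval}

theorem major_rep (x : List Bool) : major p x = major p (List.replicate x.length true) := by
  unfold major
  rw [List.length_replicate]

theorem isP_preimage (A : Oracle) (L : Set (List Bool)) (G : List Bool → List Bool) (hG : Poly G)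
    (h : IsP A L) : IsP A (G ⁻¹' L) := by
  obtain ⟨V, hV, h⟩ := h
  exact ⟨fun x => V (G x), IsFP.comp (G := V) hV (IsFP.of_poly hG), fun x => h (G x)⟩

theorem isNP_preimage (A : Oracle) (L : Set (List Bool)) (G : List Bool → List Bool) (hG : Poly G)
    (h : IsNP A L) : IsNP A (G ⁻¹' L) := by
  obtain ⟨V, q, hV, hL⟩ := h
  obtain ⟨r, hr⟩ := hG.sz_le
  have hp : Poly (fun z : List Bool => G (unpair z).1) := hG.comp (p_un1 Poly.id)
  have h1 : IsFP A (fun z : List Bool => V (pairBits (G (unpair z).1) (unpair z).2)) :=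
    IsFP.comp (G := V) hV (IsFP.of_poly (H622R2.poly_pairBits hp (p_un2 Poly.id)))
  have hp2 : Poly (fun t : List Bool × List Bool × List Bool => G (unpair t.1).1) :=
    hp.comp (Poly.fst Poly.id)
  have h2 := IsFP.seq (φ := fun p : List Bool × List Bool => p.1)
    (ψ := fun t : List Bool × List Bool × List Bool =>
      if (unpair t.1).2.length ≤ q.eval (G (unpair t.1).1).length then t.2.1 else [])
    h1 (IsFP.of_poly (A := A) (F := fun _ => ([] : List Bool)) (NPC.Poly.const _))
    (Poly.fst Poly.id)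
    (Poly.ite (Poly.decide_le (Poly.length (p_un2 (Poly.fst Poly.id)))
      ((UPoly.length hp2).eval q).toPoly) (Poly.fst (Poly.snd Poly.id)) (NPC.Poly.const _))
  refine ⟨_, q.comp (r.comp (Polynomial.C 4 * Polynomial.X + Polynomial.C 1)), h2, fun y => ?_⟩
  have hlen : (G y).length ≤
      (r.comp (Polynomial.C 4 * Polynomial.X + Polynomial.C 1)).eval y.length :=
    A2.sz_eval_le ((length_lt_sz _).le.trans (hr y))
  rw [Set.mem_preimage, hL]
  simp only [unpair_pairBits]
  constructor
  · rintro ⟨w, hw, h1⟩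
    refine ⟨w, ?_, ?_⟩
    · rw [Polynomial.eval_comp]
      exact hw.trans (eval_mono' q hlen)
    · rw [if_pos hw, h1]
  · rintro ⟨w, _, h1⟩
    by_cases hw : w.length ≤ q.eval (G y).length
    · exact ⟨w, hw, by rwa [if_pos hw] at h1⟩
    · rw [if_neg hw] at h1
      simp at h1

/-- The polynomially bounded case, for one oracle. -/
theorem collapse {A B : Oracle} (hB : ∀ x, B x = B (List.replicate x.length true))
    (h : SparseDiff A B) :
    (∀ L : Set (List Bool), (WithAdvice (IsP A) L ↔ WithAdvice InP L) ∧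
      (WithAdvice (IsNP A) L ↔ WithAdvice InNP L)) ∧
    ((∃ L : Set (List Bool), IsNP A L ∧ ¬ WithAdvice (IsP A) L) ↔
      ∃ L : Set (List Bool), InNP L ∧ ¬ WithAdvice InP L) ∧
    ((∃ L : Set (List Bool), IsNP A L ∧ ¬ WithAdvice (IsCoNP A) L) ↔
      ∃ L : Set (List Bool), InNP L ∧ ¬ WithAdvice InCoNP L) := by
  refine ⟨fun L => ⟨advice_P_iff hB h, advice_NP_iff hB h⟩, ?_, ?_⟩
  · constructor
    · rintro ⟨L, h1, h2⟩
      by_contra hcon
      push Not at hcon
      have h3 := (advice_NP_iff hB h).1 (WithAdvice.of (isNP_preimage A) h1)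
      exact h2 ((advice_P_iff hB h).2 (WithAdvice.twice inP_preimage (h3.mono hcon)))
    · rintro ⟨L, h1, h2⟩
      exact ⟨L, isNP_of_inNP A h1, fun h3 => h2 ((advice_P_iff hB h).1 h3)⟩
  · constructor
    · rintro ⟨L, h1, h2⟩
      by_contra hcon
      push Not at hcon
      have h3 := (advice_NP_iff hB h).1 (WithAdvice.of (isNP_preimage A) h1)
      exact h2 ((advice_coNP_iff hB h).2 (WithAdvice.twice inCoNP_preimage (h3.mono hcon)))
    · rintro ⟨L, h1, h2⟩
      exact ⟨L, isNP_of_inNP A h1, fun h3 => h2 ((advice_coNP_iff hB h).1 h3)⟩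

theorem bounded (h : PolyBdd (lam p)) : ∀ᵐ A ∂(biasedOracle p),
    (∀ L : Set (List Bool), (WithAdvice (IsP A) L ↔ WithAdvice InP L) ∧
      (WithAdvice (IsNP A) L ↔ WithAdvice InNP L)) ∧
    ((∃ L : Set (List Bool), IsNP A L ∧ ¬ WithAdvice (IsP A) L) ↔
      ∃ L : Set (List Bool), InNP L ∧ ¬ WithAdvice InP L) ∧
    ((∃ L : Set (List Bool), IsNP A L ∧ ¬ WithAdvice (IsCoNP A) L) ↔
      ∃ L : Set (List Bool), InNP L ∧ ¬ WithAdvice InCoNP L) := by
  filter_upwards [ae_sparseDiff p h] with A hA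
  exact collapse major_rep hA

/-- The oracles relative to which `NP` is not contained in `P/poly`. -/
def Hard : Set Oracle := {A | ∃ L : Set (List Bool), IsNP A L ∧ ¬ WithAdvice (IsP A) L}

theorem polyBdd_zero : PolyBdd (lam zeroDensity) := ⟨0, fun n => by simp [lam, zeroDensity]⟩

theorem hard_iff : (∃ L : Set (List Bool), InNP L ∧ ¬ WithAdvice InP L) ↔
    ∀ p : ℕ → unitInterval, ∀ᵐ A ∂(biasedOracle p), ∃ L : Set (List Bool),
      IsNP A L ∧ ¬ WithAdvice (IsP A) L := by
  constructor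
  · intro h p
    by_cases hp : PolyBdd (lam p)
    · filter_upwards [bounded hp] with A hA
      exact hA.2.1.2 h
    · filter_upwards [unbounded hp] with A hA
      obtain ⟨L, h1, _, h2⟩ := hA
      exact ⟨L, h1, h2⟩
  · intro h
    obtain ⟨A, h1, h2⟩ := ((h zeroDensity).and (bounded polyBdd_zero)).exists
    exact h2.2.1.1 h1

theorem hard_iff' (p : ℕ → unitInterval) (hp : PolyBdd (lam p)) :
    (∃ L : Set (List Bool), InNP L ∧ ¬ WithAdvice InP L) ↔
      0 < biasedOracle p {A | ∃ L : Set (List Bool), IsNP A L ∧ ¬ WithAdvice (IsP A) L} := by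
  constructor
  · intro h
    have h1 : ∀ᵐ A ∂(biasedOracle p), ∃ L : Set (List Bool),
      IsNP A L ∧ ¬ WithAdvice (IsP A) L := hard_iff.1 h p
    rw [pos_iff_ne_zero]
    intro h2
    have h3 : ∀ᵐ A ∂(biasedOracle p), ¬ ∃ L : Set (List Bool),
      IsNP A L ∧ ¬ WithAdvice (IsP A) L := by
      rw [ae_iff]
      simpa only [not_not] using h2
    obtain ⟨A, hA, hA'⟩ := (h1.and h3).exists
    exact hA' hA
  · intro h
    by_contra hcon
    have h1 : ∀ᵐ A ∂(biasedOracle p), ¬ ∃ L : Set (List Bool),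
        IsNP A L ∧ ¬ WithAdvice (IsP A) L := by
      filter_upwards [bounded hp] with A hA
      exact fun h2 => hcon (hA.2.1.1 h2)
    rw [ae_iff] at h1
    simp only [not_not] at h1
    rw [h1] at h
    exact lt_irrefl _ h

end Pool.Agent.H530R3.Adv
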