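import Pool.Agent.H530R3.Adv.Sparse

/-!
# Densities which are polynomially bounded
-/

set_option autoImplicit false

namespace Pool.Agent.H530R3.Adv

open MeasureTheory Pool.Agent.NPC Pool.Agent.H628R3.RO
open Pool.Agent.H530R3.Thr hiding InP inNP_of_inP
open Pool.Agent.H583R2.S2 (IsP chr)
open scoped ENNReal

variable (p : ℕ → unitInterval)

/-- the number of the differences of length `n` -/
noncomputable def dcount (A : Oracle) (n : ℕ) : ℕ :=
  ((words n).filter (fun x => A x ≠ major p x)).card

theorem measurableSet_ne (x : List Bool) : MeasurableSet {A : Oracle | A x ≠ major p x} := by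
  have h : {A : Oracle | A x ≠ major p x} = {A : Oracle | A x = !(major p x)} := by
    ext A
    simp only [Set.mem_ofPred_eq]
    cases A x <;> cases major p x <;> simp
  rw [h]
  exact measurableSet_eq_fun (measurable_pi_apply x) measurable_const

theorem dcount_eq (A : Oracle) (n : ℕ) : (dcount p A n : ℝ≥0∞) =
    ∑ x ∈ words n, ({A : Oracle | A x ≠ major p x}).indicator 1 A := by
  classical
  unfold dcount
  rw [Finset.card_filter]
  push_cast
  refine Finset.sum_congr rfl fun x _ => ?_
  rw [Set.indicator_apply]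
  rfl

theorem lintegral_dcount (n : ℕ) : ∫⁻ A, (dcount p A n : ℝ≥0∞) ∂(biasedOracle p) =
    ENNReal.ofReal (lam p n) := by
  simp only [dcount_eq]
  rw [lintegral_finsetSum]
  · have h5 : ∀ b ∈ words n, ∫⁻ A, ({A : Oracle | A b ≠ major p b}).indicator 1 A
        ∂(biasedOracle p) = ENNReal.ofReal (min (p n : ℝ) (1 - p n)) := by
      intro b hb
      rw [lintegral_indicator_one (measurableSet_ne p b), measure_ne_major, mem_words.1 hb]
    rw [Finset.sum_congr rfl h5, Finset.sum_const, card_words, nsmul_eq_mul]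
    unfold lam
    rw [ENNReal.ofReal_mul (by positivity)]
    congr 1
    rw [ENNReal.ofReal_pow (by norm_num)]
    norm_num
  · intro b _
    exact measurable_one.indicator (measurableSet_ne p b)

theorem measurable_dcount (n : ℕ) : Measurable (fun A : Oracle => (dcount p A n : ℝ≥0∞)) := by
  simp only [dcount_eq]
  exact Finset.measurable_sum _ fun b _ => measurable_one.indicator (measurableSet_ne p b)

theorem ae_sparseDiff (h : PolyBdd (lam p)) :
    ∀ᵐ A ∂(biasedOracle p), SparseDiff A (major p) := by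
  obtain ⟨P, hP⟩ := h
  have h1 : ∑' n : ℕ, biasedOracle p {A : Oracle | (((n + 1) ^ 2 * (P.eval n + 1) : ℕ) : ℝ≥0∞) ≤
      (dcount p A n : ℝ≥0∞)} ≠ ⊤ := by
    have h2 : ∀ n : ℕ, biasedOracle p {A : Oracle | (((n + 1) ^ 2 * (P.eval n + 1) : ℕ) : ℝ≥0∞) ≤
        (dcount p A n : ℝ≥0∞)} ≤ ENNReal.ofReal (1 / ((n : ℝ) + 1) ^ 2) := by
      intro n
      have h3 := meas_ge_le_lintegral_div (μ := biasedOracle p)
        (f := fun A : Oracle => (dcount p A n : ℝ≥0∞)) (measurable_dcount p n).aemeasurable
        (ε := (((n + 1) ^ 2 * (P.eval n + 1) : ℕ) : ℝ≥0∞))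
        (by
          rw [Nat.cast_ne_zero]
          positivity) (ENNReal.natCast_ne_top _)
      refine h3.trans ?_
      rw [lintegral_dcount, ← ENNReal.ofReal_natCast, ← ENNReal.ofReal_div_of_pos (by positivity)]
      refine ENNReal.ofReal_le_ofReal ?_
      have h4 := hP n
      push_cast
      rw [div_le_div_iff₀ (by positivity) (by positivity)]
      have h5 : (0 : ℝ) ≤ ((n : ℝ) + 1) ^ 2 := by positivity
      nlinarith
    refine ne_top_of_le_ne_top ?_ (ENNReal.tsum_le_tsum h2)
    refine Summable.tsum_ofReal_ne_top ?_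
    have h6 : Summable (fun n : ℕ => 1 / (n : ℝ) ^ 2) :=
      Real.summable_one_div_nat_pow.2 (by norm_num)
    have h7 := (summable_nat_add_iff 1).2 h6
    refine h7.congr fun n => ?_
    push_cast
    rfl
  filter_upwards [ae_finite_setOfPred_mem h1] with A hA
  obtain ⟨N, hN⟩ := hA.bddAbove
  refine ⟨(Polynomial.X + 1) ^ 2 * (P + 1) + Polynomial.C (2 ^ N), fun n => ?_⟩
  rw [Polynomial.eval_add, Polynomial.eval_C, Polynomial.eval_mul, Polynomial.eval_pow,
    Polynomial.eval_add, Polynomial.eval_add, Polynomial.eval_X, Polynomial.eval_one]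
  change dcount p A n ≤ _
  by_cases hn : (n + 1) ^ 2 * (P.eval n + 1) ≤ dcount p A n
  · have h2 : n ≤ N := hN (by
      simp only [Set.mem_ofPred_eq]
      exact_mod_cast hn)
    have h3 : dcount p A n ≤ 2 ^ n := by
      unfold dcount
      rw [← card_words n]
      exact Finset.card_filter_le _ _
    have h4 : 2 ^ n ≤ 2 ^ N := Nat.pow_le_pow_right (by norm_num) h2
    exact (h3.trans h4).trans (Nat.le_add_left _ _)
  · exact (not_le.1 hn).le.trans (Nat.le_add_right _ _)

end Pool.Agent.H530R3.Adv
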