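import Pool.Agent.H530R3.Adv.Color
import Pool.Agent.H530R3.Thr.NP

/-!
# The test language with a prefix
-/

set_option autoImplicit false

namespace Pool.Agent.H530R3.Adv

open MeasureTheory ProbabilityTheory Pool.Agent.NPC Pool.Agent.H628R3.RO Pool.Agent.H530R3.Thr

/-- the code of a bit, three numbers and a string -/
def code2 (b : Bool) (m j r : ℕ) (v : List Bool) : List Bool := pairBits (code b m j r) v

/-- The test language: the codes of `(b, m, j, r, v)` such that for some `w` of length `m` the
oracle has the bit `b` at all strings of the block of `v w`. -/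
def Lang2 (A : Oracle) : Set (List Bool) :=
  {x | ∃ w : List Bool, w.length = mm (unpair x).1 ∧ ∀ i < jj (unpair x).1,
    A (spot (jj (unpair x).1) (rr (unpair x).1) ((unpair x).2 ++ w) i) = bb (unpair x).1}

theorem mem_Lang2_code {A : Oracle} {b : Bool} {m j r : ℕ} {v : List Bool} :
    code2 b m j r v ∈ Lang2 A ↔ ∃ w : List Bool, w.length = m ∧ A ∈ Full (blk j r (v ++ w)) b := by
  unfold Lang2 Full blk code2
  simp only [Set.mem_ofPred_eq, unpair_pairBits, mm_code, jj_code, rr_code, bb_code,
    Finset.mem_image, Finset.mem_range, forall_exists_index, and_imp, forall_apply_eq_imp_iff₂]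

theorem length_code2 (b : Bool) (m j r : ℕ) (v : List Bool) :
    (code2 b m j r v).length = 4 * m + 4 * j + 2 * r + 9 + v.length := by
  unfold code2
  rw [length_pairBits, length_code]
  ring

/-- the test language is in `NP` -/
theorem isNP_Lang2 (A : Oracle) : IsNP A (Lang2 A) := by
  obtain ⟨q, hq⟩ := (u_mm (p_un1 (Poly.id : Poly (fun x : List Bool => x)))).sz_le
  refine isNP_of_tt A _
    (Q := fun p => (List.range (jj (unpair p.1).1)).map
      (spot (jj (unpair p.1).1) (rr (unpair p.1).1) ((unpair p.1).2 ++ p.2)))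
    (T := fun p => decide (p.1.2.length = mm (unpair p.1.1).1) &&
      p.2.all (fun c => decide (c = bb (unpair p.1.1).1)))
    ?_ ?_ (q.comp (Polynomial.C 4 * Polynomial.X + Polynomial.C 1)) fun x => ?_
  · exact p_block (u_jj (p_un1 (Poly.fst Poly.id))) (u_rr (p_un1 (Poly.fst Poly.id)))
      (Poly.append (p_un2 (Poly.fst Poly.id)) (Poly.snd Poly.id))
  · have h1 : Poly (fun p : (List Bool × List Bool) × List Bool => p.1.1) :=
      Poly.fst (Poly.fst Poly.id)
    have h2 : Poly (fun p : (List Bool × List Bool) × List Bool => p.1.2) :=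
      Poly.snd (Poly.fst Poly.id)
    have h3 : Poly (fun p : (List Bool × List Bool) × List Bool => p.2) := Poly.snd Poly.id
    refine Poly.and (Poly.decide_eq (Poly.length h2) (u_mm (p_un1 h1)).toPoly) ?_
    exact Poly.all (p := fun (p : (List Bool × List Bool) × List Bool) (c : Bool) =>
      decide (c = bb (unpair p.1.1).1)) h3 (Poly.decide_eq (Poly.snd Poly.id)
        (p_bb (p_un1 (Poly.fst (Poly.fst (Poly.fst Poly.id))))))
  · have hlen : mm (unpair x).1 ≤
        (q.comp (Polynomial.C 4 * Polynomial.X + Polynomial.C 1)).eval x.length := by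
      refine A2.sz_eval_le ?_
      have h4 := length_lt_sz (List.replicate (mm (unpair x).1) ())
      rw [List.length_replicate] at h4
      exact h4.le.trans (hq x)
    unfold Lang2
    simp only [Set.mem_ofPred_eq, Bool.and_eq_true, decide_eq_true_eq, List.all_eq_true,
      List.mem_map, List.mem_range]
    constructor
    · rintro ⟨w, hw, h⟩
      refine ⟨w, by rw [hw]; exact hlen, hw, ?_⟩
      rintro _ ⟨_, ⟨i, hi, rfl⟩, rfl⟩
      exact h i hi
    · rintro ⟨w, _, hw, h⟩
      exact ⟨w, hw, fun i hi => h _ ⟨_, ⟨i, hi, rfl⟩, rfl⟩⟩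

/-- the blocks of the strings `v w` -/
def arr (b : Bool) (a m j r : ℕ) : Arr (Fin a → Bool) (Fin m → Bool) where
  J v w := blk j r (List.ofFn v ++ List.ofFn w)
  n := a + m + j + r
  j := j
  b := b
  disj v w v' w' h := by
    refine disjoint_blk (by simp) fun e => h ?_
    obtain ⟨h1, h2⟩ := List.append_inj e (by simp)
    rw [List.ofFn_injective h1, List.ofFn_injective h2]
  len v w x hx := by
    rw [length_of_mem_blk hx]
    simp
  card v w := card_blk _ _ _

theorem mem_hit {b : Bool} {a m j r : ℕ} {A : Oracle} {v : Fin a → Bool} :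
    A ∈ (arr b a m j r).hit v ↔ code2 b m j r (List.ofFn v) ∈ Lang2 A := by
  rw [mem_Lang2_code]
  unfold Arr.hit arr
  simp only [Set.mem_ofPred_eq]
  constructor
  · rintro ⟨w, hw⟩
    exact ⟨List.ofFn w, by simp, hw⟩
  · rintro ⟨w, rfl, hw⟩
    exact ⟨w.get, by rw [List.ofFn_get]; exact hw⟩

/-- the instance -/
def inst (b : Bool) (a m j r : ℕ) (v : Fin a → Bool) : List Bool := code2 b m j r (List.ofFn v)

theorem length_inst (b : Bool) (a m j r : ℕ) (v : Fin a → Bool) :
    (inst b a m j r v).length = 4 * m + 4 * j + 2 * r + 9 + a := by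
  unfold inst
  rw [length_code2, List.length_ofFn]

/-- the verifier `M` accepts the instance, with the advice `α` -/
def acc (M : Alg) (q : Polynomial ℕ) (b : Bool) (a m j r : ℕ) (α : List Bool) (v : Fin a → Bool) :
    Set Oracle :=
  {A | ∃ w : List Bool, w.length ≤ q.eval (pairBits (inst b a m j r v) α).length ∧
    M.out A (pairBits (pairBits (inst b a m j r v) α) w) = some [true]}

/-- the verifier is right about the complement of the test language on the instances -/
def right (M : Alg) (q : Polynomial ℕ) (b : Bool) (a m j r : ℕ) (α : List Bool) : Set Oracle :=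
  {A | ∀ v, A ∈ acc M q b a m j r α v ↔ A ∉ (arr b a m j r).hit v}

/-- bound for the advice -/
noncomputable def pS (s : Polynomial ℕ) : Polynomial ℕ := s.comp (4 * Polynomial.X + 9)

/-- bound for the inputs -/
noncomputable def pI (q s : Polynomial ℕ) : Polynomial ℕ :=
  2 * (2 * (4 * Polynomial.X + 9) + 1 + pS s) + 1 + q.comp (2 * (4 * Polynomial.X + 9) + 1 + pS s)

theorem length_input {q s : Polynomial ℕ} {b : Bool} {a m j r : ℕ} {α w : List Bool}
    {v : Fin a → Bool} (hα : α.length ≤ (pS s).eval (a + m + j + r))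
    (hw : w.length ≤ q.eval (pairBits (inst b a m j r v) α).length) :
    (pairBits (pairBits (inst b a m j r v) α) w).length ≤ (pI q s).eval (a + m + j + r) := by
  have h1 : (pairBits (inst b a m j r v) α).length ≤
      (2 * (4 * Polynomial.X + 9) + 1 + pS s : Polynomial ℕ).eval (a + m + j + r) := by
    rw [length_pairBits, length_inst]
    simp only [Polynomial.eval_add, Polynomial.eval_mul, Polynomial.eval_X, Polynomial.eval_ofNat,
      Polynomial.eval_one]
    omega
  have h2 := hw.trans (eval_mono' q h1)
  rw [length_pairBits]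
  unfold pI
  rw [Polynomial.eval_add, Polynomial.eval_comp, Polynomial.eval_add, Polynomial.eval_mul]
  simp only [Polynomial.eval_ofNat, Polynomial.eval_one]
  omega

theorem right_le {p : ℕ → unitInterval} (M : Alg) (q s : Polynomial ℕ) (b : Bool)
    (a m j r : ℕ) (Q m0 : ℕ) (hQ : M.p.eval ((pI q s).eval (a + m + j + r)) ≤ Q) (hQ0 : 0 < Q)
    (hQm : 2 * Q ≤ 2 ^ m) (hm0 : 16 * Q * m0 ≤ 2 ^ a) (α : List Bool)
    (hα : α.length ≤ (pS s).eval (a + m + j + r)) :
    pr p (right M q b a m j r α ∩ {A | 2 * (arr b a m j r).hits Finset.univ A ≤ 2 ^ a}) ≤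
      16 * Q * (1 + (arr b a m j r).mu p / 2)⁻¹ ^ m0 := by
  obtain ⟨qb, hqb⟩ := M.out_local
  set n := a + m + j + r with hn
  set L := max n (qb.eval ((pI q s).eval n)) with hL
  have hmain := (arr b a m j r).average (p := p) (Q := Q) (L := L)
    (acc M q b a m j r α) (le_max_left _ _) hQ0 (by simpa using hQm) (right M q b a m j r α)
    ?_ (fun A hA v => hA v) ?_ m0 (by simpa using hm0) (by simp)
  · simpa using hmain
  · -- locality
    intro A A' h
    have hacc : ∀ v, A ∈ acc M q b a m j r α v ↔ A' ∈ acc M q b a m j r α v := by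
      intro v
      unfold acc
      simp only [Set.mem_ofPred_eq]
      refine exists_congr fun w => and_congr_right fun hw => ?_
      obtain ⟨T, _, h2, h3⟩ := hqb A (pairBits (pairBits (inst b a m j r v) α) w)
      rw [h3 A' fun x hx => (h x ?_).symm]
      exact ((h2 x hx).trans (eval_mono' qb (length_input hα hw))).trans (le_max_right _ _)
    have hhit : ∀ v, A ∈ (arr b a m j r).hit v ↔ A' ∈ (arr b a m j r).hit v := by
      intro v
      refine (arr b a m j r).loc_hit v A A' fun x hx => h x ?_
      obtain ⟨w, hw⟩ := hx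
      simp only [Set.mem_ofPred_eq]
      rw [(arr b a m j r).len v w x hw]
      exact le_max_left _ _
    unfold right
    simp only [Set.mem_ofPred_eq]
    exact forall_congr' fun v => by rw [hacc, hhit]
  · rintro A _ v ⟨w, hw, hout⟩
    obtain ⟨T, h1, h2, h3⟩ := hqb A (pairBits (pairBits (inst b a m j r v) α) w)
    have hlen := length_input hα hw
    refine ⟨T, (h1.trans (eval_mono' M.p hlen)).trans hQ,
      fun x hx => ((h2 x hx).trans (eval_mono' qb hlen)).trans (le_max_right _ _), by simp,
      fun A' hA' => ⟨w, hw, by rw [h3 A' hA', hout]⟩⟩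

end Pool.Agent.H530R3.Adv
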