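import Pool.Agent.H530R3.Adv.Asym
import Pool.Agent.H530R3.Thr.Final

/-!
# Densities which are not polynomially bounded
-/

set_option autoImplicit false

namespace Pool.Agent.H530R3.Adv

open MeasureTheory ProbabilityTheory Pool.Agent.NPC Pool.Agent.H628R3.RO Pool.Agent.H530R3.Thr
open Pool.Agent.H583R2.S2 (IsP chr)

/-- bounded by a polynomial -/
def PolyBdd (f : ℕ → ℝ) : Prop := ∃ P : Polynomial ℕ, ∀ n, f n ≤ ((P.eval n : ℕ) : ℝ)

/-- The languages which are in the class `C` with the help of advice of polynomial length. -/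
def WithAdvice (C : Set (List Bool) → Prop) (L : Set (List Bool)) : Prop :=
  ∃ (L' : Set (List Bool)) (h : ℕ → List Bool) (q : Polynomial ℕ), C L' ∧
    (∀ n, (h n).length ≤ q.eval n) ∧ ∀ x, x ∈ L ↔ pairBits x (h x.length) ∈ L'

variable (p : ℕ → unitInterval)

theorem lam_le (n : ℕ) : lam p n ≤ 2 ^ n := by
  unfold lam
  have h : min (p n : ℝ) (1 - p n) ≤ 1 := (min_le_left _ _).trans (p n).2.2
  calc (2 : ℝ) ^ n * min (p n : ℝ) (1 - p n) ≤ 2 ^ n * 1 :=
        mul_le_mul_of_nonneg_left h (by positivity)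
    _ = 2 ^ n := mul_one _

variable {p}

theorem unbdd (h : ¬ PolyBdd (lam p)) (R : Polynomial ℕ) (n0 : ℕ) :
    ∃ n ≥ n0, ((R.eval n : ℕ) : ℝ) < lam p n := by
  by_contra hcon
  push Not at hcon
  refine h ⟨R + Polynomial.C (2 ^ n0), fun n => ?_⟩
  rw [Polynomial.eval_add, Polynomial.eval_C]
  push_cast
  rcases le_or_gt n0 n with h1 | h1
  · have := hcon n h1
    have h2 : (0 : ℝ) ≤ 2 ^ n0 := by positivity
    linarith
  · have h2 := lam_le p n
    have h3 : (2 : ℝ) ^ n ≤ 2 ^ n0 := pow_le_pow_right₀ (by norm_num) h1.le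
    have h4 : (0 : ℝ) ≤ ((R.eval n : ℕ) : ℝ) := by positivity
    linarith

/-- the polynomial of the bounds for the questions -/
noncomputable def pQ (M : Alg) (q s : Polynomial ℕ) : Polynomial ℕ := M.p.comp (pI q s) + 1

/-- the polynomial which the density has to exceed -/
noncomputable def pR (M : Alg) (q s : Polynomial ℕ) : Polynomial ℕ :=
  192 * pQ M q s * (pS s + pQ M q s + 5 + Polynomial.X) + 6 * Polynomial.X + 2

theorem pR_eval (M : Alg) (q s : Polynomial ℕ) (n : ℕ) : (pR M q s).eval n =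
    192 * (pQ M q s).eval n * ((pS s).eval n + (pQ M q s).eval n + 5 + n) + 6 * n + 2 := by
  unfold pR
  simp only [Polynomial.eval_add, Polynomial.eval_mul, Polynomial.eval_X, Polynomial.eval_ofNat]

theorem bad_small (h : ¬ PolyBdd (lam p)) (M : Alg) (q s : Polynomial ℕ) (k : ℕ) :
    ∃ (b : Bool) (a m j : ℕ), pr p (bad M q s b a m j) ≤ 2 * (1 / 2) ^ k := by
  obtain ⟨N, hN⟩ := C2.poly_le ((pR M q s).comp (4 * Polynomial.X + 12)) 1
  obtain ⟨n, hn, hlam⟩ := unbdd h (2 * pR M q s) (k + 4 * N + 12)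
  rw [Polynomial.eval_mul, Polynomial.eval_ofNat] at hlam
  set R := (pR M q s).eval n with hR
  set l := Nat.clog 2 R with hl
  have hR1 : 2 ≤ R := by
    rw [hR, pR_eval]
    omega
  have hk : R ≤ 2 ^ ((n - 8) / 4) := by
    have h1 := hN ((n - 8) / 4) (by omega)
    rw [one_mul, Polynomial.eval_comp] at h1
    refine le_trans ?_ h1
    rw [hR]
    apply eval_mono'
    simp only [Polynomial.eval_add, Polynomial.eval_mul, Polynomial.eval_X, Polynomial.eval_ofNat]
    omega
  have hl1 : 4 * l + 8 ≤ n := by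
    have h1 : l ≤ (n - 8) / 4 := by
      rw [hl]
      exact Nat.clog_le_of_le_pow hk
    omega
  have hl2 : R ≤ 2 ^ l := Nat.le_pow_clog (by norm_num) R
  have hl3 : 2 ^ l ≤ 2 * R := by
    have h1 : 2 ^ (l - 1) < R := by
      have := Nat.pow_pred_clog_lt_self (b := 2) (x := R) (by norm_num) (by omega)
      simpa [hl] using this
    have h2 : 0 < l := by
      rw [hl]
      exact Nat.clog_pos (by norm_num) hR1
    have h3 : 2 ^ l = 2 * 2 ^ (l - 1) := by
      rw [← pow_succ']
      congr 1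
      omega
    omega
  have hl4 : (2 : ℝ) ^ l ≤ lam p n := by
    have h1 : ((2 ^ l : ℕ) : ℝ) ≤ ((2 * R : ℕ) : ℝ) := by exact_mod_cast hl3
    push_cast at h1 hlam
    linarith
  obtain ⟨b, a, m, j, h1, h2, h3, h4, h5⟩ := par2_p p hl1 hl4
  refine ⟨b, a, m, j, ?_⟩
  subst h1
  have hRe := hR
  rw [pR_eval] at hRe
  set Q := (pQ M q s).eval (a + m + j) with hQdef
  have hQ0 : 0 < Q := by
    rw [hQdef]
    unfold pQ
    rw [Polynomial.eval_add, Polynomial.eval_one]
    omega
  have hQ : M.p.eval ((pI q s).eval (a + m + j + 0)) ≤ Q := by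
    rw [hQdef]
    unfold pQ
    rw [Polynomial.eval_add, Polynomial.eval_comp]
    exact Nat.le_add_right _ _
  have h2a : 2 ^ l ≤ 2 ^ a := Nat.pow_le_pow_right (by norm_num) h2
  have h2m : 2 ^ l ≤ 2 ^ m := Nat.pow_le_pow_right (by norm_num) h3
  have hQR : 2 * Q ≤ R := by
    rw [hRe]
    have : 192 * Q * 1 ≤ 192 * Q * ((pS s).eval (a + m + j) + Q + 5 + (a + m + j)) :=
      Nat.mul_le_mul_left _ (by omega)
    omega
  refine (bad_le M q s b a m j Q hQ hQ0 (by omega) ?_ h4 h5).trans ?_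
  · change 192 * Q * ((pS s).eval (a + m + j) + Q + 5 + (a + m + j)) + 6 * (a + m + j) + 2 ≤ 2 ^ a
    rw [← hRe]
    omega
  · have h6 : (1 / 2 : ℝ) ^ (a + m + j) ≤ (1 / 2) ^ k :=
      pow_le_pow_of_le_one (by norm_num) (by norm_num) (by omega)
    linarith

/-- the oracles relative to which the verifier works, with some advice -/
def Works (M : Alg) (q s : Polynomial ℕ) : Set Oracle :=
  {A | ∃ h : ℕ → List Bool, (∀ n, (h n).length ≤ s.eval n) ∧ ∀ x : List Bool,
    x ∈ Lang2 A ↔ ¬ ∃ w : List Bool, w.length ≤ q.eval (pairBits x (h x.length)).length ∧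
      M.out A (pairBits (pairBits x (h x.length)) w) = some [true]}

theorem works_sub (M : Alg) (q s : Polynomial ℕ) (b : Bool) (a m j : ℕ) :
    Works M q s ⊆ bad M q s b a m j := by
  rintro A ⟨h, h1, h2⟩
  refine ⟨h (4 * m + 4 * j + 2 * 0 + 9 + a), ?_, fun v => ?_⟩
  · refine (h1 _).trans ?_
    unfold pS
    rw [Polynomial.eval_comp]
    apply eval_mono'
    simp only [Polynomial.eval_add, Polynomial.eval_mul, Polynomial.eval_X, Polynomial.eval_ofNat]
    omega
  · have h3 := h2 (inst b a m j 0 v)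
    rw [length_inst] at h3
    have h4 : A ∈ (arr b a m j 0).hit v ↔ inst b a m j 0 v ∈ Lang2 A := mem_hit
    rw [h4, h3, not_not]
    rfl

theorem works_null (h : ¬ PolyBdd (lam p)) (M : Alg) (q s : Polynomial ℕ) :
    biasedOracle p (Works M q s) = 0 := by
  have h1 : pr p (Works M q s) ≤ 0 := by
    refine le_of_forall_pos_le_add fun ε hε => ?_
    obtain ⟨k, hk⟩ := exists_pow_lt_of_lt_one (show 0 < ε / 2 by linarith)
      (show (1 / 2 : ℝ) < 1 by norm_num)
    obtain ⟨b, a, m, j, h2⟩ := bad_small h M q s k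
    have h3 := pr_mono (p := p) (works_sub M q s b a m j)
    linarith
  have h2 : (biasedOracle p).real (Works M q s) = 0 := le_antisymm h1 measureReal_nonneg
  rwa [measureReal_eq_zero_iff] at h2

theorem ae_not_advice (h : ¬ PolyBdd (lam p)) :
    ∀ᵐ A ∂(biasedOracle p), ¬ WithAdvice (IsCoNP A) (Lang2 A) := by
  have hc : Countable Alg := Alg.countable
  have hp : Countable (Polynomial ℕ) := countable_polynomial
  have h1 : ∀ᵐ A ∂(biasedOracle p), ∀ (M : Alg) (q s : Polynomial ℕ), ¬ A ∈ Works M q s := by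
    rw [ae_all_iff]
    intro M
    rw [ae_all_iff]
    intro q
    rw [ae_all_iff]
    intro s
    rw [ae_iff]
    simp only [not_not]
    exact works_null h M q s
  filter_upwards [h1] with A hA
  rintro ⟨L', g, s, ⟨V, q, ⟨M, hM⟩, hV⟩, hg, hL⟩
  refine hA M q s ⟨g, hg, fun x => ?_⟩
  rw [hL x]
  have h2 := hV (pairBits x (g x.length))
  rw [Set.mem_compl_iff] at h2
  rw [← not_iff_not, h2, not_not]
  refine exists_congr fun w => and_congr_right fun _ => ?_
  rw [hM]
  simp

theorem isCoNP_of_isP {A : Oracle} {L : Set (List Bool)} (h : IsP A L) : IsCoNP A L := by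
  obtain ⟨V, hV, h⟩ := h
  refine isNP_of_isP ⟨fun x => if V x = [true] then [] else [true], ?_, fun x => ?_⟩
  · exact IsFP.comp (G := fun y : List Bool => if y = [true] then [] else [true]) (IsFP.of_poly
      (Poly.ite (Poly.decide_eq Poly.id (NPC.Poly.const _)) (NPC.Poly.const _) (NPC.Poly.const _))) hV
  · rw [Set.mem_compl_iff, h x]
    by_cases h2 : V x = [true] <;> simp [h2]

theorem WithAdvice.mono {C C' : Set (List Bool) → Prop} (h : ∀ L, C L → C' L)
    {L : Set (List Bool)} (hL : WithAdvice C L) : WithAdvice C' L := by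
  obtain ⟨L', g, q, h1, h2, h3⟩ := hL
  exact ⟨L', g, q, h _ h1, h2, h3⟩

theorem unbounded (h : ¬ PolyBdd (lam p)) :
    ∀ᵐ A ∂(biasedOracle p), ∃ L : Set (List Bool), IsNP A L ∧ ¬ WithAdvice (IsCoNP A) L ∧
      ¬ WithAdvice (IsP A) L := by
  filter_upwards [ae_not_advice h] with A hA
  exact ⟨Lang2 A, isNP_Lang2 A, hA, fun h1 => hA (h1.mono fun _ => isCoNP_of_isP)⟩

end Pool.Agent.H530R3.Adv
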