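import Pool.Agent.H530R3.Adv.Null

/-!
# Sparse oracles: the oracle goes into the advice
-/

set_option autoImplicit false

namespace Pool.Agent.H530R3.Adv

open MeasureTheory Pool.Agent.NPC Pool.Agent.H628R3.RO
open Pool.Agent.H530R3.Thr hiding InP inNP_of_inP
open Pool.Agent.H583R2.S2 (IsP chr)

/-! ### tables -/

/-- the list of strings coded by a bit string -/
def tabOf (a : List Bool) : List (List Bool) :=
  match unbits (List (List Bool)) a with
  | none => []
  | some l => l

theorem tabOf_bits (S : List (List Bool)) : tabOf (bits S) = S := by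
  unfold tabOf
  rw [unbits_bits]

theorem p_tabOf {α : Type} [TEnc α] {a : α → List Bool} (ha : Poly a) :
    Poly (fun x => tabOf (a x)) := by
  refine (Poly.optCases (o := fun x => unbits (List (List Bool)) (a x))
    (g := fun _ => ([] : List (List Bool))) (h := fun _ l => l) (poly_unbits.comp ha)
    (NPC.Poly.const _) (Poly.snd Poly.id)).congr fun x => ?_
  unfold tabOf
  cases unbits (List (List Bool)) (a x) <;> rfl

/-- the list of the strings of length at most `N` in the oracle -/
noncomputable def tab (E : Oracle) (N : ℕ) : List (List Bool) :=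
  (((Finset.range (N + 1)).biUnion words).filter (fun x => E x = true)).toList

theorem mem_tab {E : Oracle} {N : ℕ} {x : List Bool} :
    x ∈ tab E N ↔ x.length ≤ N ∧ E x = true := by
  unfold tab
  rw [Finset.mem_toList, Finset.mem_filter, Finset.mem_biUnion]
  refine and_congr_left fun _ => ⟨?_, fun h => ⟨x.length, Finset.mem_range.2 (by omega),
    mem_words.2 rfl⟩⟩
  rintro ⟨i, hi, h⟩
  rw [Finset.mem_range] at hi
  rw [mem_words] at h
  omega

theorem ofL_tab {E : Oracle} {N : ℕ} {x : List Bool} (h : x.length ≤ N) :
    ofL (tab E N) x = E x := by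
  unfold ofL
  rw [Bool.eq_iff_iff, decide_eq_true_iff, mem_tab]
  exact and_iff_right h

/-- polynomially many strings of each length are in the oracle -/
def Sparse (E : Oracle) : Prop :=
  ∃ P : Polynomial ℕ, ∀ n, ((words n).filter (fun x => E x = true)).card ≤ P.eval n

theorem length_tab_le {E : Oracle} (h : Sparse E) :
    ∃ P : Polynomial ℕ, ∀ N, (bits (tab E N)).length ≤ P.eval N := by
  obtain ⟨P, hP⟩ := h
  refine ⟨(Polynomial.X + 1) * P * (4 * Polynomial.X + 2) + 1, fun N => ?_⟩
  rw [bits_length]
  have h1 := sz_le_length_mul (tab E N) (4 * N + 1) fun x hx =>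
    (sz_listBool_le x).trans (by have := (mem_tab.1 hx).1; omega)
  have h2 : (tab E N).length ≤ (N + 1) * P.eval N := by
    unfold tab
    rw [Finset.length_toList, Finset.filter_biUnion]
    refine Finset.card_biUnion_le.trans ?_
    calc ∑ i ∈ Finset.range (N + 1), ((words i).filter (fun x => E x = true)).card ≤
          ∑ _i ∈ Finset.range (N + 1), P.eval N := Finset.sum_le_sum fun i hi =>
            (hP i).trans (eval_mono' P (by rw [Finset.mem_range] at hi; omega))
      _ = (N + 1) * P.eval N := by simp
  simp only [Polynomial.eval_add, Polynomial.eval_mul, Polynomial.eval_X, Polynomial.eval_ofNat,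
    Polynomial.eval_one]
  have h3 := Nat.mul_le_mul_right (4 * N + 2) h2
  rw [show 4 * N + 1 + 1 = 4 * N + 2 by ring] at h1
  omega

theorem exists_tab (M : Alg) : ∃ qb : Polynomial ℕ, ∀ (E : Oracle) (N : ℕ) (y : List Bool),
    y.length ≤ N → M.out (ofL (tab E (qb.eval N))) y = M.out E y := by
  obtain ⟨qb, hqb⟩ := M.out_local
  refine ⟨qb, fun E N y hy => ?_⟩
  obtain ⟨T, _, h2, h3⟩ := hqb E y
  exact h3 _ fun x hx => ofL_tab ((h2 x hx).trans (eval_mono' qb hy))

/-- the advice of `L'` together with the table -/
theorem advice_P_of_sparse {E : Oracle} (hE : Sparse E) {L : Set (List Bool)}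
    (h : WithAdvice (IsP E) L) : WithAdvice InP L := by
  obtain ⟨L', g, s, ⟨V, ⟨M, hM⟩, hV⟩, hg, hL⟩ := h
  obtain ⟨qb, hqb⟩ := exists_tab M
  obtain ⟨P, hP⟩ := length_tab_le hE
  have hp : Poly (fun z : List Bool => if M.out (ofL (tabOf (unpair (unpair z).2).2))
      (pairBits (unpair z).1 (unpair (unpair z).2).1) = some [true] then [true] else
        ([] : List Bool)) :=
    Poly.ite (Poly.decide_eq (p_out M (p_tabOf (p_un2 (p_un2 Poly.id)))
      (H622R2.poly_pairBits (p_un1 Poly.id) (p_un1 (p_un2 Poly.id)))) (NPC.Poly.const _))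
      (NPC.Poly.const _) (NPC.Poly.const _)
  refine ⟨{z | M.out (ofL (tabOf (unpair (unpair z).2).2))
      (pairBits (unpair z).1 (unpair (unpair z).2).1) = some [true]},
    fun n => pairBits (g n) (bits (tab E (qb.eval (2 * n + 1 + s.eval n)))),
    2 * s + 1 + P.comp (qb.comp (2 * Polynomial.X + 1 + s)),
    ⟨_, H622R2.polyTime_of_poly_list hp, fun z => ?_⟩, fun n => ?_, fun x => ?_⟩
  · simp only [Set.mem_ofPred_eq]
    split_ifs with h1 <;> simp [h1]
  · rw [length_pairBits]
    have h1 := hP (qb.eval (2 * n + 1 + s.eval n))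
    have h2 := hg n
    simp only [Polynomial.eval_add, Polynomial.eval_mul, Polynomial.eval_X, Polynomial.eval_ofNat,
      Polynomial.eval_one, Polynomial.eval_comp]
    omega
  · simp only [Set.mem_ofPred_eq, unpair_pairBits, tabOf_bits]
    rw [hqb, hL x, hV, hM]
    · simp
    · rw [length_pairBits]
      have := hg x.length
      omega

theorem advice_NP_of_sparse {E : Oracle} (hE : Sparse E) {L : Set (List Bool)}
    (h : WithAdvice (IsNP E) L) : WithAdvice InNP L := by
  obtain ⟨L', g, s, ⟨V, q, ⟨M, hM⟩, hV⟩, hg, hL⟩ := h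
  obtain ⟨qb, hqb⟩ := exists_tab M
  obtain ⟨P, hP⟩ := length_tab_le hE
  set L2 : Set (List Bool) := {z | ∃ w : List Bool, w.length ≤
      q.eval (pairBits (unpair z).1 (unpair (unpair z).2).1).length ∧
    M.out (ofL (tabOf (unpair (unpair z).2).2))
      (pairBits (pairBits (unpair z).1 (unpair (unpair z).2).1) w) = some [true]} with hL2
  have hp0 : Poly (fun z : List Bool => pairBits (unpair z).1 (unpair (unpair z).2).1) :=
    H622R2.poly_pairBits (p_un1 Poly.id) (p_un1 (p_un2 Poly.id))
  have hL2NP : InNP L2 := by
    have h0 : Poly (fun z : List Bool => (unpair z).1) := p_un1 Poly.id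
    have h1 : Poly (fun z : List Bool => pairBits (unpair (unpair z).1).1
        (unpair (unpair (unpair z).1).2).1) := hp0.comp h0
    have hV : Poly (fun z : List Bool => if (unpair z).2.length ≤
        q.eval (pairBits (unpair (unpair z).1).1 (unpair (unpair (unpair z).1).2).1).length then
        (if M.out (ofL (tabOf (unpair (unpair (unpair z).1).2).2))
          (pairBits (pairBits (unpair (unpair z).1).1 (unpair (unpair (unpair z).1).2).1)
          (unpair z).2) = some [true] then [true] else []) else ([] : List Bool)) := by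
      have h3 : Poly (fun z : List Bool => (unpair z).2) := p_un2 Poly.id
      exact Poly.ite (Poly.decide_le (Poly.length h3) ((UPoly.length h1).eval q).toPoly)
        (Poly.ite (Poly.decide_eq (p_out M (p_tabOf (p_un2 (p_un2 h0)))
        (H622R2.poly_pairBits h1 h3)) (NPC.Poly.const _)) (NPC.Poly.const _) (NPC.Poly.const _))
        (NPC.Poly.const _)
    obtain ⟨r, hr⟩ := hp0.sz_le
    refine ⟨_, q.comp (r.comp (Polynomial.C 4 * Polynomial.X + Polynomial.C 1)),
      H622R2.polyTime_of_poly_list hV, fun y => ?_⟩
    have hlen : (pairBits (unpair y).1 (unpair (unpair y).2).1).length ≤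
        (r.comp (Polynomial.C 4 * Polynomial.X + Polynomial.C 1)).eval y.length :=
      A2.sz_eval_le ((length_lt_sz _).le.trans (hr y))
    rw [hL2]
    simp only [Set.mem_ofPred_eq, unpair_pairBits]
    constructor
    · rintro ⟨w, hw, h1⟩
      refine ⟨w, ?_, ?_⟩
      · rw [Polynomial.eval_comp]
        exact hw.trans (eval_mono' q hlen)
      · rw [if_pos hw, if_pos h1]
    · rintro ⟨w, _, h1⟩
      by_cases hw : w.length ≤
          q.eval (pairBits (unpair y).1 (unpair (unpair y).2).1).length
      · refine ⟨w, hw, ?_⟩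
        rw [if_pos hw] at h1
        by_contra h2
        rw [if_neg h2] at h1
        simp at h1
      · rw [if_neg hw] at h1
        simp at h1
  refine ⟨L2, fun n => pairBits (g n) (bits (tab E (qb.eval (2 * (2 * n + 1 + s.eval n) + 1 +
      q.eval (2 * n + 1 + s.eval n))))),
    2 * s + 1 + P.comp (qb.comp (2 * (2 * Polynomial.X + 1 + s) + 1 +
      q.comp (2 * Polynomial.X + 1 + s))), hL2NP, fun n => ?_, fun x => ?_⟩
  · rw [length_pairBits]
    have h1 := hP (qb.eval (2 * (2 * n + 1 + s.eval n) + 1 + q.eval (2 * n + 1 + s.eval n)))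
    have h2 := hg n
    simp only [Polynomial.eval_add, Polynomial.eval_mul, Polynomial.eval_X, Polynomial.eval_ofNat,
      Polynomial.eval_one, Polynomial.eval_comp]
    omega
  · rw [hL2]
    simp only [Set.mem_ofPred_eq, unpair_pairBits, tabOf_bits]
    rw [hL x, hV]
    refine exists_congr fun w => and_congr_right fun hw => ?_
    have h3 : (pairBits x (g x.length)).length ≤ 2 * x.length + 1 + s.eval x.length := by
      rw [length_pairBits]
      have := hg x.length
      omega
    rw [hqb, hM]
    · simp
    · rw [length_pairBits (pairBits x (g x.length))]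
      have := eval_mono' q h3
      omega

/-! ### sparse variations of an oracle which depends on the length only -/

/-- the join of `D` and of the tally part of `t` -/
def join (D t : Oracle) : Oracle := fun x =>
  match x with
  | [] => false
  | true :: y => D y
  | false :: y => y.all id && t y

/-- the differences -/
def diff (A B : Oracle) : Oracle := fun x => xor (A x) (B x)

theorem isP_join {A B : Oracle} (hB : ∀ x, B x = B (List.replicate x.length true)) :
    IsP (join (diff A B) B) {x | A x = true} := by
  have h1 : IsFP (join (diff A B) B) (fun x => (fun z : List Bool × List Bool =>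
      if z.2[0]? = z.2[1]? then [] else [true])
      (x, ([true :: x, false :: List.replicate x.length true] : List (List Bool)).map
        (join (diff A B) B))) := by
    refine IsFP.tt (Q := fun x : List Bool => [true :: x, false :: List.replicate x.length true])
      (H := fun z : List Bool × List Bool => if z.2[0]? = z.2[1]? then [] else [true])
      ?_ ?_
    · exact Poly.cons (Poly.cons (NPC.Poly.const true) Poly.id) (Poly.cons
        (Poly.cons (NPC.Poly.const false) (p_replicate (UPoly.length Poly.id) true))
        (NPC.Poly.const []))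
    · exact Poly.ite (Poly.decide_eq (Poly.getElem? (Poly.snd Poly.id) (NPC.Poly.const 0))
        (Poly.getElem? (Poly.snd Poly.id) (NPC.Poly.const 1))) (NPC.Poly.const _)
        (NPC.Poly.const _)
  refine ⟨_, h1, fun x => ?_⟩
  have h2 : join (diff A B) B (true :: x) = xor (A x) (B x) := rfl
  have h3 : join (diff A B) B (false :: List.replicate x.length true) = B x := by
    unfold join
    simp only [← hB x]
    have : (List.replicate x.length true).all id = true := by simp
    rw [this, Bool.true_and]
  simp only [Set.mem_ofPred_eq, List.map_cons, List.map_nil, h2, h3]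
  cases A x <;> cases B x <;> simp

theorem isFP_join {A B : Oracle} (hB : ∀ x, B x = B (List.replicate x.length true))
    {F : List Bool → List Bool} (hF : IsFP A F) : IsFP (join (diff A B) B) F := by
  refine Pool.Agent.H490R3.LH.t_CP _ {x | A x = true} F (isP_join hB) ?_
  have h1 : chr {x | A x = true} = A := by
    funext x
    unfold chr
    simp only [Set.mem_ofPred_eq, Bool.decide_eq_true]
  rw [h1]
  exact hF

/-- `A` differs from `B` at polynomially many strings of each length -/
def SparseDiff (A B : Oracle) : Prop :=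
  ∃ P : Polynomial ℕ, ∀ n, ((words n).filter (fun x => A x ≠ B x)).card ≤ P.eval n

theorem sparse_join {A B : Oracle} (h : SparseDiff A B) : Sparse (join (diff A B) B) := by
  obtain ⟨P, hP⟩ := h
  refine ⟨P + 1, fun n => ?_⟩
  rw [Polynomial.eval_add, Polynomial.eval_one]
  have hsub : (words n).filter (fun x => join (diff A B) B x = true) ⊆
      ((words (n - 1)).filter (fun x => A x ≠ B x)).image (fun x => true :: x) ∪
      {false :: List.replicate (n - 1) true} := by
    intro x hx
    rw [Finset.mem_filter, mem_words] at hx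
    obtain ⟨hx1, hx2⟩ := hx
    rw [Finset.mem_union]
    match x, hx1, hx2 with
    | [], _, h => simp [join] at h
    | true :: y, h1, h2 =>
      left
      rw [Finset.mem_image]
      refine ⟨y, Finset.mem_filter.2 ⟨mem_words.2 ?_, ?_⟩, rfl⟩
      · rw [List.length_cons] at h1
        omega
      · have h3 : xor (A y) (B y) = true := h2
        revert h3
        cases A y <;> cases B y <;> simp
    | false :: y, h1, h2 =>
      right
      rw [Finset.mem_singleton]
      congr 1
      have h3 : (y.all id && B y) = true := h2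
      rw [Bool.and_eq_true, List.all_eq_true] at h3
      rw [List.eq_replicate_iff]
      refine ⟨?_, fun b hb => h3.1 b hb⟩
      rw [List.length_cons] at h1
      omega
  refine (Finset.card_le_card hsub).trans ((Finset.card_union_le _ _).trans ?_)
  rw [Finset.card_singleton]
  have h1 := Finset.card_image_le (s := (words (n - 1)).filter (fun x => A x ≠ B x))
    (f := fun x : List Bool => true :: x)
  have h2 := hP (n - 1)
  have h3 := eval_mono' P (show n - 1 ≤ n by omega)
  omega

theorem isP_of_inP (A : Oracle) {L : Set (List Bool)} (h : InP L) : IsP A L := by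
  obtain ⟨V, hV, h⟩ := h
  exact ⟨V, IsFP.of_poly (H622R2.poly_of_polyTime hV), h⟩

theorem advice_P_iff {A B : Oracle} (hB : ∀ x, B x = B (List.replicate x.length true))
    (h : SparseDiff A B) {L : Set (List Bool)} : WithAdvice (IsP A) L ↔ WithAdvice InP L := by
  refine ⟨fun hL => advice_P_of_sparse (sparse_join h) (hL.mono fun L' h' => ?_),
    fun hL => hL.mono fun _ => isP_of_inP A⟩
  obtain ⟨V, hV, h1⟩ := h'
  exact ⟨V, isFP_join hB hV, h1⟩

theorem advice_NP_iff {A B : Oracle} (hB : ∀ x, B x = B (List.replicate x.length true))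
    (h : SparseDiff A B) {L : Set (List Bool)} : WithAdvice (IsNP A) L ↔ WithAdvice InNP L := by
  refine ⟨fun hL => advice_NP_of_sparse (sparse_join h) (hL.mono fun L' h' => ?_),
    fun hL => hL.mono fun _ => isNP_of_inNP A⟩
  obtain ⟨V, q, hV, h1⟩ := h'
  exact ⟨V, q, isFP_join hB hV, h1⟩

/-! ### advice twice, complements -/

theorem WithAdvice.of {C : Set (List Bool) → Prop}
    (hC : ∀ (L : Set (List Bool)) (F : List Bool → List Bool), Poly F → C L → C (F ⁻¹' L))
    {L : Set (List Bool)} (h : C L) : WithAdvice C L := by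
  refine ⟨(fun z => (unpair z).1) ⁻¹' L, fun _ => [], 0, hC _ _ (p_un1 Poly.id) h, fun n => ?_,
    fun x => ?_⟩
  · simp
  · rw [Set.mem_preimage, unpair_pairBits]

theorem WithAdvice.twice {C : Set (List Bool) → Prop}
    (hC : ∀ (L : Set (List Bool)) (F : List Bool → List Bool), Poly F → C L → C (F ⁻¹' L))
    {L : Set (List Bool)} (h : WithAdvice (WithAdvice C) L) : WithAdvice C L := by
  obtain ⟨L', g, q, ⟨L2, g2, q2, h2, h3, h4⟩, h5, h6⟩ := h
  refine ⟨(fun z => pairBits (pairBits (unpair z).1 (unpair (unpair z).2).1)
    (unpair (unpair z).2).2) ⁻¹' L2,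
    fun n => pairBits (g n) (g2 (2 * n + 1 + (g n).length)),
    2 * q + 1 + q2.comp (2 * Polynomial.X + 1 + q), hC _ _ ?_ h2, fun n => ?_, fun x => ?_⟩
  · exact H622R2.poly_pairBits (H622R2.poly_pairBits (p_un1 Poly.id) (p_un1 (p_un2 Poly.id)))
      (p_un2 (p_un2 Poly.id))
  · rw [length_pairBits]
    have h7 := h5 n
    have h8 := (h3 (2 * n + 1 + (g n).length)).trans
      (eval_mono' q2 (show 2 * n + 1 + (g n).length ≤ 2 * n + 1 + q.eval n by omega))
    simp only [Polynomial.eval_add, Polynomial.eval_mul, Polynomial.eval_X, Polynomial.eval_ofNat,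
      Polynomial.eval_one, Polynomial.eval_comp]
    omega
  · rw [h6, h4, length_pairBits, Set.mem_preimage, unpair_pairBits, unpair_pairBits]

theorem inP_preimage (L : Set (List Bool)) (F : List Bool → List Bool) (hF : Poly F)
    (h : InP L) : InP (F ⁻¹' L) :=
  InP.of_reduces ⟨F, H622R2.polyTime_of_poly_list hF, fun _ => Iff.rfl⟩ h

theorem inNP_preimage (L : Set (List Bool)) (F : List Bool → List Bool) (hF : Poly F)
    (h : InNP L) : InNP (F ⁻¹' L) :=
  H622R2.InNP.of_reduces ⟨F, H622R2.polyTime_of_poly_list hF, fun _ => Iff.rfl⟩ h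

theorem inCoNP_preimage (L : Set (List Bool)) (F : List Bool → List Bool) (hF : Poly F)
    (h : InCoNP L) : InCoNP (F ⁻¹' L) := inNP_preimage Lᶜ F hF h

theorem WithAdvice.compl {C : Set (List Bool) → Prop} {L : Set (List Bool)} :
    WithAdvice (fun L => C Lᶜ) L ↔ WithAdvice C Lᶜ := by
  constructor
  · rintro ⟨L', g, q, h1, h2, h3⟩
    exact ⟨L'ᶜ, g, q, h1, h2, fun x => not_congr (h3 x)⟩
  · rintro ⟨L', g, q, h1, h2, h3⟩
    refine ⟨L'ᶜ, g, q, by simpa using h1, h2, fun x => ?_⟩
    have := h3 x
    rw [Set.mem_compl_iff] at this ⊢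
    tauto

theorem advice_coNP_iff {A B : Oracle} (hB : ∀ x, B x = B (List.replicate x.length true))
    (h : SparseDiff A B) {L : Set (List Bool)} :
    WithAdvice (IsCoNP A) L ↔ WithAdvice InCoNP L :=
  (WithAdvice.compl (C := IsNP A)).trans ((advice_NP_iff hB h).trans
    (WithAdvice.compl (C := InNP)).symm)

end Pool.Agent.H530R3.Adv
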